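import Pool.Agent.Lib.MP_b89b7d_lc.Upper

set_option autoImplicit false
set_option linter.unusedSectionVars false
set_option linter.style.haveILetI false

namespace Pool.Agent.Lib.MP_b89b7d_lc

open Set TopologicalSpace Filter Topology MeasureTheory

/-- Interleaving of `z` and `y`. -/
def mix (z : ℕ → Bool) (y : ℕ → ℕ) (k : ℕ) : ℕ := Nat.pair (z k).toNat (y k)

theorem mix_inj {z z' : ℕ → Bool} {y y' : ℕ → ℕ} {k : ℕ} (hm : mix z y k = mix z' y' k) :
    z k = z' k ∧ y k = y' k := by
  unfold mix at hm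
  rw [Nat.pair_eq_pair] at hm
  refine ⟨?_, hm.2⟩
  cases h1 : z k <;> cases h2 : z' k <;> simp_all

/-- The diagonal set. -/
def Diag : Set (ℕ → Bool) := {z | ¬ ∃ y, ∀ m, z (code (mix z y) m) = true}

theorem diag_compl_analytic : AnalyticSet Diagᶜ := by
  let R : Set ((ℕ → Bool) × (ℕ → ℕ)) := {q | ∀ m, ∃ c, code (mix q.1 q.2) m = c ∧ q.1 c = true}
  have hR : Prod.fst '' R = Diagᶜ := by
    ext z
    constructor
    · rintro ⟨⟨z', y⟩, hq, rfl⟩ hcon
      apply hcon
      refine ⟨y, fun m => ?_⟩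
      obtain ⟨c, hc, hc2⟩ := hq m
      simp only at hc hc2 ⊢
      rw [hc]
      exact hc2
    · intro hz
      have hz' : ∃ y, ∀ m, z (code (mix z y) m) = true := by
        by_contra hcon
        exact hz hcon
      obtain ⟨y, hy⟩ := hz'
      exact ⟨(z, y), fun m => ⟨_, rfl, hy m⟩, rfl⟩
  have m1 : ∀ n, Measurable fun q : (ℕ → Bool) × (ℕ → ℕ) => q.1 n :=
    fun n => (measurable_pi_apply n).comp measurable_fst
  have m2 : ∀ n, Measurable fun q : (ℕ → Bool) × (ℕ → ℕ) => q.2 n :=
    fun n => (measurable_pi_apply n).comp measurable_snd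
  have m3 : ∀ n, Measurable fun q : (ℕ → Bool) × (ℕ → ℕ) => mix q.1 q.2 n := by
    intro n
    exact (measurable_of_countable (fun t : Bool × ℕ => Nat.pair t.1.toNat t.2)).comp
      ((m1 n).prodMk (m2 n))
  have m4 : ∀ m, Measurable fun q : (ℕ → Bool) × (ℕ → ℕ) => code (mix q.1 q.2) m := by
    intro m
    induction m with
    | zero => exact measurable_const
    | succ m ih =>
      exact (measurable_of_countable (fun t : ℕ × ℕ => Nat.pair t.1 t.2 + 1)).comp
        (ih.prodMk (m3 m))
  have hRm : MeasurableSet R := by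
    apply measurableSet_setOfPred.2
    refine Measurable.forall fun m => Measurable.exists fun c => Measurable.and ?_ ?_
    · exact (measurable_of_countable (fun t : ℕ => t = c)).comp (m4 m)
    · exact (measurable_of_countable (fun b : Bool => b = true)).comp (m1 c)
  rw [← hR]
  haveI := polish_pair
  exact hRm.analyticSet.image_of_continuous continuous_fst

theorem diag_not_analytic : ¬ AnalyticSet Diag := by
  intro hA
  rw [AnalyticSet] at hA
  rcases hA with hemp | ⟨f, hf, hr⟩
  · have : (fun _ => false) ∈ Diag := by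
      rintro ⟨y, hy⟩
      have := hy 0
      simp at this
    rw [hemp] at this
    exact this
  · let z₀ : ℕ → Bool := fun c => toB (∃ m y, c = code (mix (f y) y) m)
    have hz₀ : ∀ z : ℕ → Bool, (∃ y, ∀ m, z₀ (code (mix z y) m) = true) → z ∈ Set.range f := by
      rintro z ⟨y, hy⟩
      have h1 : ∀ m, ∃ y', (∀ i < m, z i = f y' i) ∧ ∀ i < m, y i = y' i := by
        intro m
        obtain ⟨m', y', hc⟩ := toB_true.1 (hy m)
        obtain ⟨-, h3⟩ := code_inj hc
        exact ⟨y', fun i hi => (mix_inj (h3 i hi)).1, fun i hi => (mix_inj (h3 i hi)).2⟩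
      choose y' hy1 hy2 using h1
      have hlim : Tendsto y' atTop (𝓝 y) := by
        rw [tendsto_pi_nhds]
        intro i
        refine (tendsto_const_nhds (x := y i)).congr' ?_
        filter_upwards [eventually_gt_atTop i] with m hm
        exact hy2 m i hm
      have hlim2 : Tendsto (fun m => f (y' m)) atTop (𝓝 (f y)) := (hf.tendsto y).comp hlim
      have hlim3 : Tendsto (fun m => f (y' m)) atTop (𝓝 z) := by
        rw [tendsto_pi_nhds]
        intro i
        refine (tendsto_const_nhds (x := z i)).congr' ?_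
        filter_upwards [eventually_gt_atTop i] with m hm
        exact hy1 m i hm
      exact ⟨y, tendsto_nhds_unique hlim2 hlim3⟩
    by_cases h0 : z₀ ∈ Diag
    · have h1 := h0
      rw [← hr] at h1
      obtain ⟨y, hy⟩ := h1
      apply h0
      refine ⟨y, fun m => ?_⟩
      rw [toB_true]
      exact ⟨m, y, by rw [hy]⟩
    · have h1 : ∃ y, ∀ m, z₀ (code (mix z₀ y) m) = true := by
        by_contra hcon
        exact h0 hcon
      have h2 := hz₀ z₀ h1
      rw [hr] at h2
      exact h0 h2

theorem diag_sigma12 : IsSigma12 Diag := by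
  refine ⟨Prod.fst ⁻¹' Diag, ?_, ?_⟩
  · have h1 : (Prod.fst ⁻¹' Diag : Set ((ℕ → Bool) × (ℕ → ℕ)))ᶜ = Prod.fst ⁻¹' Diagᶜ := rfl
    rw [h1]
    haveI := polish_pair
    exact diag_compl_analytic.preimage continuous_fst
  · ext z
    constructor
    · rintro ⟨⟨z', y⟩, hz, rfl⟩
      exact hz
    · intro hz
      exact ⟨(z, fun _ => 0), hz, rfl⟩

/-- Analytic sets are not `Σ¹₂`-complete. -/
theorem not_complete_of_analytic {S : Set (ℕ → Bool)} (hS : AnalyticSet S) :
    ¬ IsSigma12Complete S := by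
  rintro ⟨_, h2⟩
  obtain ⟨f, hf, hfS⟩ := h2 Diag diag_sigma12
  haveI := polish_cantor
  apply diag_not_analytic
  rw [← hfS]
  exact hS.preimage hf

namespace Triple

variable {T : Triple} {lefin : T.AR → T.AR → Prop}

variable (h : T.Axioms lefin)

include h

theorem Axioms.atom_iff {s : T.AR} {B : T.R} : T.IsAtom s B ↔ T.r B (T.len s) = s ∧
    ∀ n, T.len s ≤ n → ∀ u, T.Initial (T.r B n) u → T.len u = n + 1 →
      (∃ m, lefin u (T.r B m)) → u = T.r B (n + 1) := by
  constructor
  · intro hat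
    have hB : B ∈ T.basic s B := by
      have : B ∈ ({B} : Set T.R) := rfl
      rw [← hat] at this
      exact this
    have hB' := h.mem_basic.1 hB
    refine ⟨hB'.1, fun n hn u hu1 hu2 hu3 => ?_⟩
    have hu : u ∈ T.Succ (T.r B n) B := by
      rw [h.mem_succ, h.len_r]
      exact ⟨hu1, hu2, hu3⟩
    obtain ⟨C, hC, rfl⟩ := hu
    have hini : T.Initial s (T.r B n) := by
      rw [h.initial_iff]
      exact ⟨hn, hB'.1⟩
    have hC' := h.basic_anti hini B hC
    rw [hat] at hC'
    rw [hC', h.len_r]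
  · rintro ⟨h1, h2⟩
    apply Set.eq_singleton_iff_unique_mem.2
    refine ⟨h.mem_basic.2 ⟨h1, h.le_refl _⟩, fun C hC => ?_⟩
    have hC' := h.mem_basic.1 hC
    have key : ∀ n, T.len s ≤ n → T.r C n = T.r B n := by
      intro n hn
      induction n, hn using Nat.le_induction with
      | base => rw [hC'.1, h1]
      | succ n hn ih =>
        refine h2 n hn (T.r C (n + 1)) ?_ (h.len_r _ _) ((h.le_iff _ _).1 hC'.2 _)
        rw [← ih]
        exact h.initial_r C (Nat.le_succ n)
    apply h.ext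
    intro n
    exact h.r_eq_of_le (key (max n (T.len s)) (le_max_right _ _)) (le_max_left _ _)

/-- If atoms are dense, the set of codes is analytic. -/
theorem Axioms.analytic_of_atoms
    (hat : ∀ s A, (T.basic s A).Nonempty → ∃ B ∈ T.basic s A, T.IsAtom s B)
    (e : ℕ × T.AR ≃ ℕ) : AnalyticSet (T.codes e) := by
  classical
  haveI := h.countable
  obtain ⟨A₀⟩ := h.nonempty
  haveI : Nonempty T.AR := ⟨T.r A₀ 0⟩
  obtain ⟨ρ, hρ⟩ := exists_surjective_nat T.AR
  let R : Set ((ℕ → Bool) × (ℕ → ℕ)) := {q |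
    (∀ N, T.len (ρ (q.2 (N + 1))) = N ∧
      ∀ k ≤ N, T.Initial (ρ (q.2 (k + 1))) (ρ (q.2 (N + 1)))) ∧
    (∃ n, ρ (q.2 (n + 1)) = ρ (q.2 0)) ∧
    (∀ n, T.len (ρ (q.2 0)) ≤ n → ∀ u, T.Initial (ρ (q.2 (n + 1))) u → T.len u = n + 1 →
      (∃ m, lefin u (ρ (q.2 (m + 1)))) → u = ρ (q.2 (n + 1 + 1))) ∧
    ((∀ (n : ℕ) (a b : T.AR), T.Initial a b → q.1 (e (n, b)) = true →
      q.1 (e (n, a)) = true) ∧ ∀ n, ∃ k, ¬ q.1 (e (n, ρ (q.2 (k + 1)))) = true)}
  have hcode : ∀ x, x ∈ T.codes e ↔ ∃ s B, T.IsAtom s B ∧ B ∈ T.G e x := by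
    intro x
    rw [h.codes_iff]
    constructor
    · rintro ⟨s, A, hne, hsub⟩
      obtain ⟨B, hB, hB2⟩ := hat s A hne
      exact ⟨s, B, hB2, hsub hB⟩
    · rintro ⟨s, B, hB, hBG⟩
      have hB' : T.basic s B = {B} := hB
      refine ⟨s, B, ?_, ?_⟩
      · rw [hB']
        exact Set.singleton_nonempty B
      · rw [hB', Set.singleton_subset_iff]
        exact hBG
  have hR : Prod.fst '' R = T.codes e := by
    ext x
    rw [hcode]
    constructor
    · rintro ⟨⟨x', y⟩, ⟨h1, ⟨n, h2⟩, h3, h4⟩, rfl⟩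
      simp only at h1 h2 h3 h4 ⊢
      obtain ⟨B, hB⟩ := h.exists_pt (b := fun n => ρ (y (n + 1))) h1
      refine ⟨ρ (y 0), B, ?_, ?_⟩
      · rw [h.atom_iff]
        have hs : T.r B (T.len (ρ (y 0))) = ρ (y 0) := by
          have h5 : T.r B n = ρ (y 0) := by rw [hB]; exact h2
          rw [h.len_eq h5]
          exact h5
        refine ⟨hs, fun n hn u hu1 hu2 hu3 => ?_⟩
        rw [hB] at hu1 ⊢
        refine h3 n hn u hu1 hu2 ?_
        obtain ⟨m, hm⟩ := hu3
        refine ⟨m, ?_⟩
        rw [hB] at hm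
        exact hm
      · rw [mem_G_iff]
        refine ⟨h4.1, fun n => ?_⟩
        obtain ⟨k, hk⟩ := h4.2 n
        refine ⟨k, ?_⟩
        rw [hB]
        exact hk
    · rintro ⟨s, B, hB, hBG⟩
      have hex : ∀ k : ℕ, ∃ c, ρ c = (if k = 0 then s else T.r B (k - 1)) := fun k => hρ _
      choose y hy using hex
      have hy0 : ρ (y 0) = s := by rw [hy]; simp
      have hyk : ∀ k, ρ (y (k + 1)) = T.r B k := by
        intro k
        rw [hy]; simp
      rw [h.atom_iff] at hB
      rw [mem_G_iff] at hBG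
      refine ⟨(x, y), ⟨?_, ?_, ?_, ?_, ?_⟩, rfl⟩
      · intro N
        simp only [hyk]
        exact ⟨h.len_r _ _, fun k hk => h.initial_r B hk⟩
      · simp only [hyk, hy0]
        exact ⟨_, hB.1⟩
      · simp only [hyk, hy0]
        exact hB.2
      · exact hBG.1
      · simp only [hyk]
        exact hBG.2
  have m1 : ∀ n, Measurable fun q : (ℕ → Bool) × (ℕ → ℕ) => q.1 n :=
    fun n => (measurable_pi_apply n).comp measurable_fst
  have m2 : ∀ n, Measurable fun q : (ℕ → Bool) × (ℕ → ℕ) => q.2 n :=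
    fun n => (measurable_pi_apply n).comp measurable_snd
  have c2 : ∀ (p : ℕ → ℕ → Prop)
      (f g : (ℕ → Bool) × (ℕ → ℕ) → ℕ), Measurable f → Measurable g →
      Measurable fun q => p (f q) (g q) := by
    intro p f g hf hg
    exact (measurable_of_countable (fun t : ℕ × ℕ => p t.1 t.2)).comp (hf.prodMk hg)
  have c1 : ∀ (p : ℕ → Prop)
      (f : (ℕ → Bool) × (ℕ → ℕ) → ℕ), Measurable f → Measurable fun q => p (f q) := by
    intro p f hf
    exact (measurable_of_countable p).comp hf
  have cb : ∀ n, Measurable fun q : (ℕ → Bool) × (ℕ → ℕ) => q.1 n = true :=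
    fun n => (measurable_of_countable (fun b : Bool => b = true)).comp (m1 n)
  have hRm : MeasurableSet R := by
    apply measurableSet_setOfPred.2
    refine Measurable.and (Measurable.forall fun N => Measurable.and ?_ ?_) ?_
    · exact c1 (fun t => T.len (ρ t) = N) _ (m2 (N + 1))
    · refine Measurable.forall fun k => Measurable.imp measurable_const ?_
      exact c2 (fun t t' => T.Initial (ρ t) (ρ t')) _ _ (m2 (k + 1)) (m2 (N + 1))
    refine Measurable.and (Measurable.exists fun n => ?_) ?_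
    · exact c2 (fun t t' => ρ t = ρ t') _ _ (m2 (n + 1)) (m2 0)
    refine Measurable.and (Measurable.forall fun n => Measurable.imp ?_
      (Measurable.forall fun u => Measurable.imp ?_ (Measurable.imp measurable_const
        (Measurable.imp (Measurable.exists fun m => ?_) ?_)))) ?_
    · exact c1 (fun t => T.len (ρ t) ≤ n) _ (m2 0)
    · exact c1 (fun t => T.Initial (ρ t) u) _ (m2 (n + 1))
    · exact c1 (fun t => lefin u (ρ t)) _ (m2 (m + 1))
    · exact c1 (fun t => u = ρ t) _ (m2 (n + 1 + 1))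
    refine Measurable.and ?_ ?_
    · refine Measurable.forall fun n => Measurable.forall fun a => Measurable.forall fun b => ?_
      exact Measurable.imp measurable_const (Measurable.imp (cb _) (cb _))
    · refine Measurable.forall fun n => Measurable.exists fun k => Measurable.not ?_
      have heq : (fun q : (ℕ → Bool) × (ℕ → ℕ) => q.1 (e (n, ρ (q.2 (k + 1)))) = true) =
          fun q => ∃ c : ℕ, c = e (n, ρ (q.2 (k + 1))) ∧ q.1 c = true := by
        funext q
        apply propext
        constructor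
        · intro h1
          exact ⟨_, rfl, h1⟩
        · rintro ⟨c, rfl, h1⟩
          exact h1
      rw [heq]
      refine Measurable.exists fun c => Measurable.and ?_ (cb c)
      exact c1 (fun t => c = e (n, ρ t)) _ (m2 (k + 1))
  rw [← hR]
  haveI := polish_pair
  exact hRm.analyticSet.image_of_continuous continuous_fst

/-- **Dichotomy.** -/
theorem Axioms.dichotomy (e : ℕ × T.AR ≃ ℕ) :
    ((∀ s A, (T.basic s A).Nonempty → ∃ B ∈ T.basic s A, T.IsAtom s B) ∧
      AnalyticSet (T.codes e) ∧ ¬ IsSigma12Complete (T.codes e)) ∨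
    ((∃ s A, (T.basic s A).Nonempty ∧ ∀ B ∈ T.basic s A, ¬ T.IsAtom s B) ∧
      ¬ AnalyticSet (T.codes e) ∧ IsSigma12Complete (T.codes e)) := by
  by_cases hat : ∀ s A, (T.basic s A).Nonempty → ∃ B ∈ T.basic s A, T.IsAtom s B
  · left
    have h1 := h.analytic_of_atoms hat e
    exact ⟨hat, h1, not_complete_of_analytic h1⟩
  · right
    push Not at hat
    obtain ⟨s, A, hne, hs⟩ := hat
    have hs' : ∀ C ∈ T.basic s A, ¬ (T.basic s C).Subsingleton := by
      intro C hC hsub
      apply hs C hC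
      exact hsub.eq_singleton_of_mem (h.self_mem hC)
    obtain ⟨s', A', hg⟩ := h.exists_good hne hs'
    have hcomp : IsSigma12Complete (T.codes e) :=
      ⟨h.isSigma12_codes e, fun P hP => h.hard hg e hP⟩
    exact ⟨⟨s, A, hne, hs⟩, fun han => not_complete_of_analytic han hcomp, hcomp⟩

end Triple

end Pool.Agent.Lib.MP_b89b7d_lc
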