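import Pool.Agent.Lib.MP_b89b7d_lc.Defs

set_option autoImplicit false
set_option linter.unusedSectionVars false
set_option linter.style.haveILetI false

namespace Pool.Agent.Lib.MP_b89b7d_lc

open Set

namespace Triple

variable {T : Triple} {lefin : T.AR → T.AR → Prop}

/-- The length of an approximation. -/
noncomputable def len (T : Triple) (a : T.AR) : ℕ := by
  classical
  exact if h : ∃ n, ∃ A, T.r A n = a then Nat.find h else 0

variable (h : T.Axioms lefin)

include h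

theorem Axioms.len_r (A : T.R) (n : ℕ) : T.len (T.r A n) = n := by
  classical
  unfold len
  have hex : ∃ m, ∃ B, T.r B m = T.r A n := ⟨n, A, rfl⟩
  rw [dif_pos hex]
  obtain ⟨B, hB⟩ := Nat.find_spec hex
  exact (h.seq _ _ _ _ hB).1

theorem Axioms.len_eq {A : T.R} {n : ℕ} {a : T.AR} (e : T.r A n = a) : T.len a = n := by
  rw [← e]; exact h.len_r A n

theorem Axioms.r_eq_of_le {A B : T.R} {n k : ℕ} (e : T.r A n = T.r B n) (hk : k ≤ n) :
    T.r A k = T.r B k := by
  rcases Nat.lt_or_ge k n with h1 | h1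
  · exact (h.seq _ _ _ _ e).2 k h1
  · have : k = n := le_antisymm hk h1
    rw [this]; exact e

theorem Axioms.initial_r (A : T.R) {m n : ℕ} (hmn : m ≤ n) : T.Initial (T.r A m) (T.r A n) :=
  ⟨A, m, n, hmn, rfl, rfl⟩

theorem Axioms.initial_refl (a : T.AR) : T.Initial a a := by
  obtain ⟨A, n, rfl⟩ := h.surj a
  exact h.initial_r A le_rfl

theorem Axioms.initial_iff {a : T.AR} {B : T.R} {n : ℕ} :
    T.Initial a (T.r B n) ↔ T.len a ≤ n ∧ T.r B (T.len a) = a := by
  constructor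
  · rintro ⟨A, m, n', hmn, rfl, e⟩
    obtain ⟨rfl, h2⟩ := h.seq _ _ _ _ e
    rw [h.len_r]
    refine ⟨hmn, ?_⟩
    exact (h.r_eq_of_le e hmn).symm
  · rintro ⟨h1, h2⟩
    have h3 := h.initial_r B h1
    rwa [h2] at h3

theorem Axioms.initial_len {a b : T.AR} (hab : T.Initial a b) : T.len a ≤ T.len b := by
  obtain ⟨A, m, n, hmn, rfl, rfl⟩ := hab
  rw [h.len_r, h.len_r]; exact hmn

theorem Axioms.initial_trans {a b c : T.AR} (hab : T.Initial a b) (hbc : T.Initial b c) :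
    T.Initial a c := by
  obtain ⟨C, n, rfl⟩ := h.surj c
  rw [h.initial_iff] at hbc
  obtain ⟨h1, h2⟩ := hbc
  rw [← h2, h.initial_iff] at hab
  rw [h.initial_iff]
  exact ⟨hab.1.trans h1, hab.2⟩

theorem Axioms.mem_basic {s : T.AR} {A B : T.R} :
    B ∈ T.basic s A ↔ T.r B (T.len s) = s ∧ T.le B A := by
  constructor
  · rintro ⟨⟨n, hn⟩, h2⟩
    rw [h.len_eq hn]
    exact ⟨hn, h2⟩
  · rintro ⟨h1, h2⟩
    exact ⟨⟨_, h1⟩, h2⟩

theorem Axioms.mem_basic_r {A B C : T.R} {n : ℕ} :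
    B ∈ T.basic (T.r C n) A ↔ T.r B n = T.r C n ∧ T.le B A := by
  rw [h.mem_basic, h.len_r]

/-- `[a, C] ⊆ [a, B]` if `C ≤ B`. -/
theorem Axioms.basic_mono {a : T.AR} {B C : T.R} (hC : T.le C B) : T.basic a C ⊆ T.basic a B :=
  fun _ hD => ⟨hD.1, h.le_trans _ _ _ hD.2 hC⟩

theorem Axioms.self_mem {a : T.AR} {B C : T.R} (hC : C ∈ T.basic a B) : C ∈ T.basic a C :=
  ⟨hC.1, h.le_refl C⟩

theorem Axioms.basic_anti {a b : T.AR} (hab : T.Initial a b) (B : T.R) :
    T.basic b B ⊆ T.basic a B := by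
  intro C hC
  rw [h.mem_basic] at hC ⊢
  rw [← hC.1, h.initial_iff] at hab
  exact ⟨hab.2, hC.2⟩

theorem Axioms.lefin_of_le {a : T.AR} {B C : T.R} (hC : T.le C B) {m : ℕ}
    (hm : lefin a (T.r C m)) : ∃ m', lefin a (T.r B m') := by
  obtain ⟨m', hm'⟩ := (h.le_iff C B).1 hC m
  exact ⟨m', h.fin_trans _ _ _ hm hm'⟩

theorem Axioms.exists_depth {a : T.AR} {B : T.R} (hB : ∃ m, lefin a (T.r B m)) :
    ∃ d, T.Depth lefin B a d := by
  classical
  refine ⟨Nat.find hB, Nat.find_spec hB, fun k hk => Nat.find_min hB hk⟩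

theorem Axioms.self_basic (B : T.R) (d : ℕ) : B ∈ T.basic (T.r B d) B :=
  ⟨⟨d, rfl⟩, h.le_refl B⟩

theorem Axioms.nonempty_iff {a : T.AR} {B : T.R} :
    (T.basic a B).Nonempty ↔ ∃ m, lefin a (T.r B m) := by
  constructor
  · rintro ⟨C, ⟨n, hn⟩, hC⟩
    obtain ⟨m, hm⟩ := (h.le_iff C B).1 hC n
    exact ⟨m, hn ▸ hm⟩
  · intro hB
    obtain ⟨d, hd⟩ := h.exists_depth hB
    exact h.amalg₁ a B d hd B (h.self_basic B d)

theorem Axioms.depth_congr {a : T.AR} {B C : T.R} {d : ℕ} (e : T.r B d = T.r C d)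
    (hd : T.Depth lefin B a d) : T.Depth lefin C a d := by
  refine ⟨e ▸ hd.1, fun k hk hk' => hd.2 k hk ?_⟩
  rw [h.r_eq_of_le e hk.le]; exact hk'

omit h in
/-- One-step extensions of `a` compatible with `B`. -/
def Succ (T : Triple) (a : T.AR) (B : T.R) : Set T.AR :=
  {u | ∃ C ∈ T.basic a B, T.r C (T.len a + 1) = u}

theorem Axioms.mem_succ {a u : T.AR} {B : T.R} :
    u ∈ T.Succ a B ↔ T.Initial a u ∧ T.len u = T.len a + 1 ∧ ∃ m, lefin u (T.r B m) := by
  constructor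
  · rintro ⟨C, hC, rfl⟩
    rw [h.mem_basic] at hC
    refine ⟨?_, h.len_r _ _, (h.le_iff C B).1 hC.2 _⟩
    rw [h.initial_iff]
    exact ⟨Nat.le_succ _, hC.1⟩
  · rintro ⟨h1, h2, h3⟩
    obtain ⟨C, hC⟩ := h.nonempty_iff.2 h3
    refine ⟨C, h.basic_anti h1 B hC, ?_⟩
    rw [h.mem_basic, h2] at hC
    exact hC.1

theorem Axioms.succ_mono' {a : T.AR} {B C : T.R} (hC : T.basic a C ⊆ T.basic a B) :
    T.Succ a C ⊆ T.Succ a B := by
  rintro u ⟨D, hD, rfl⟩
  exact ⟨D, hC hD, rfl⟩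

theorem Axioms.succ_mono {a : T.AR} {B C : T.R} (hC : T.le C B) :
    T.Succ a C ⊆ T.Succ a B := h.succ_mono' (h.basic_mono hC)

theorem Axioms.succ_nonempty {a : T.AR} {B : T.R} (hB : (T.basic a B).Nonempty) :
    (T.Succ a B).Nonempty := by
  obtain ⟨C, hC⟩ := hB
  exact ⟨_, C, hC, rfl⟩

theorem Axioms.basic_succ_nonempty {a u : T.AR} {B : T.R} (hu : u ∈ T.Succ a B) :
    (T.basic u B).Nonempty := by
  rw [h.mem_succ] at hu
  exact h.nonempty_iff.2 hu.2.2

/-- The pigeonhole principle in `[a, B]`. -/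
theorem Axioms.pigeon' {a : T.AR} {B : T.R} (hB : (T.basic a B).Nonempty) (O : Set T.AR) :
    ∃ C ∈ T.basic a B, T.Succ a C ⊆ O ∨ T.Succ a C ∩ O = ∅ := by
  obtain ⟨d, hd⟩ := h.exists_depth (h.nonempty_iff.1 hB)
  obtain ⟨A, hA, hA2⟩ := h.pigeon a B d hd O
  obtain ⟨C, hC⟩ := h.amalg₁ a B d hd A hA
  refine ⟨C, h.basic_mono hA.2 hC, ?_⟩
  have hCA : T.basic a C ⊆ T.basic a A := h.basic_mono hC.2
  rcases hA2 with h1 | h1
  · left
    rintro u ⟨D, hD, rfl⟩
    have hD' := hCA hD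
    exact h1 D hD' _ ((h.mem_basic.1 hD').1)
  · right
    ext u
    simp only [mem_inter_iff, mem_empty_iff_false, iff_false, not_and]
    rintro ⟨D, hD, rfl⟩
    have hD' := hCA hD
    exact h1 D hD' _ ((h.mem_basic.1 hD').1)

theorem Axioms.avoid_finite {a : T.AR} {B : T.R} (hB : (T.basic a B).Nonempty)
    (hinf : ∀ C ∈ T.basic a B, (T.Succ a C).Infinite) (F : Set T.AR) (hF : F.Finite) :
    ∃ C ∈ T.basic a B, T.Succ a C ∩ F = ∅ := by
  obtain ⟨C, hC, h1 | h1⟩ := h.pigeon' hB F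
  · exact absurd (hF.subset h1) (hinf C hC)
  · exact ⟨C, hC, h1⟩

theorem Axioms.exists_singleton_aux {a : T.AR} (n : ℕ) : ∀ B : T.R, (T.basic a B).Nonempty →
    (T.Succ a B).Finite → (T.Succ a B).ncard ≤ n →
    ∃ C ∈ T.basic a B, ∃ u, T.Succ a C ⊆ {u} := by
  induction n with
  | zero =>
    intro B hB hfin hn
    exfalso
    have := h.succ_nonempty hB
    rw [← Set.ncard_pos hfin] at this
    omega
  | succ n ih =>
    intro B hB hfin hn
    obtain ⟨u, hu⟩ := h.succ_nonempty hB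
    obtain ⟨C, hC, h1 | h1⟩ := h.pigeon' hB {u}
    · exact ⟨C, hC, u, h1⟩
    · have hsub : T.Succ a C ⊆ T.Succ a B \ {u} := by
        intro v hv
        refine ⟨h.succ_mono hC.2 hv, fun hvu => ?_⟩
        have : v ∈ T.Succ a C ∩ {u} := ⟨hv, hvu⟩
        rw [h1] at this
        exact this
      have hfin' : (T.Succ a B \ {u}).Finite := hfin.sdiff
      have hcard : (T.Succ a C).ncard ≤ n := by
        have h2 := Set.ncard_le_ncard hsub hfin'
        have h3 := Set.ncard_sdiff_singleton_lt_of_mem hu hfin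
        omega
      obtain ⟨D, hD, v, hv⟩ := ih C ⟨C, h.self_mem hC⟩ (hfin'.subset hsub) hcard
      exact ⟨D, h.basic_mono hC.2 hD, v, hv⟩

theorem Axioms.exists_singleton {a : T.AR} {B : T.R} (hB : (T.basic a B).Nonempty)
    (hfin : (T.Succ a B).Finite) : ∃ C ∈ T.basic a B, ∃ u, T.Succ a C ⊆ {u} :=
  h.exists_singleton_aux _ B hB hfin le_rfl

/-- Closedness of `R`, in sequential form. -/
theorem Axioms.exists_limit (b : ℕ → T.AR) (hb : ∀ N, ∃ A, ∀ n < N, T.r A n = b n) :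
    ∃ A, ∀ n, T.r A n = b n := by
  letI : TopologicalSpace T.AR := ⊥
  haveI : DiscreteTopology T.AR := ⟨rfl⟩
  have hcl : IsClosed (Set.range T.r) := h.closed
  have hmem : b ∈ closure (Set.range T.r) := by
    rw [mem_closure_iff]
    intro o ho hbo
    rw [isOpen_pi_iff] at ho
    obtain ⟨I, u, hu, hsub⟩ := ho b hbo
    obtain ⟨A, hA⟩ := hb (I.sup id + 1)
    refine ⟨T.r A, hsub ?_, ⟨A, rfl⟩⟩
    intro i hi
    rw [hA i (Nat.lt_succ_of_le (Finset.le_sup (f := id) hi))]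
    exact (hu i hi).2
  rw [hcl.closure_eq] at hmem
  obtain ⟨A, hA⟩ := hmem
  exact ⟨A, fun n => congrFun hA n⟩

/-- One step of a fusion. -/
theorem Axioms.fusion_step (P : T.AR → T.R → Prop)
    (mono : ∀ a B B', P a B → T.basic a B' ⊆ T.basic a B → P a B')
    (s : T.AR) (A : T.R)
    (dense : ∀ a B, T.Initial s a → T.le B A → (T.basic a B).Nonempty → ∃ C ∈ T.basic a B, P a C)
    (B : T.R) (hBA : T.le B A) (d : ℕ) :
    ∃ B' ∈ T.basic (T.r B d) B, ∀ a, T.Initial s a → T.Depth lefin B a d → P a B' := by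
  classical
  have hfin : {a | lefin a (T.r B d)}.Finite := h.fin_finite _
  have key : ∀ F : Finset T.AR, ∃ B' ∈ T.basic (T.r B d) B,
      ∀ a ∈ F, T.Initial s a → T.Depth lefin B a d → P a B' := by
    intro F
    induction F using Finset.induction_on with
    | empty => exact ⟨B, h.self_basic B d, by simp⟩
    | insert a F ha ih =>
      obtain ⟨B', hB', hP⟩ := ih
      by_cases hcase : T.Initial s a ∧ T.Depth lefin B a d
      · obtain ⟨hsa, hda⟩ := hcase
        have hB'2 := (h.mem_basic_r.1 hB')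
        have hda' : T.Depth lefin B' a d := h.depth_congr hB'2.1.symm hda
        have hne : (T.basic a B').Nonempty := h.amalg₁ a B' d hda' B' (h.self_basic B' d)
        obtain ⟨C, hC, hPC⟩ := dense a B' hsa (h.le_trans _ _ _ hB'2.2 hBA) hne
        obtain ⟨B'', hB'', hne'', hsub⟩ := h.amalg₂ a C B' d hC.2 ⟨C, h.self_mem hC⟩ hda'
        have hB''2 := h.mem_basic_r.1 hB''
        refine ⟨B'', ?_, ?_⟩
        · rw [h.mem_basic_r]
          exact ⟨hB''2.1.trans hB'2.1, h.le_trans _ _ _ hB''2.2 hB'2.2⟩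
        · intro b hb hsb hdb
          rcases Finset.mem_insert.1 hb with rfl | hb
          · exact mono _ _ _ hPC hsub
          · exact mono _ _ _ (hP b hb hsb hdb) (h.basic_mono hB''2.2)
      · refine ⟨B', hB', ?_⟩
        intro b hb hsb hdb
        rcases Finset.mem_insert.1 hb with rfl | hb
        · exact absurd ⟨hsb, hdb⟩ hcase
        · exact hP b hb hsb hdb
  obtain ⟨B', hB', hP⟩ := key hfin.toFinset
  refine ⟨B', hB', fun a hsa hda => hP a ?_ hsa hda⟩
  rw [Set.Finite.mem_toFinset]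
  exact hda.1

/-- The fusion lemma. -/
theorem Axioms.fusion (P : T.AR → T.R → Prop)
    (mono : ∀ a B B', P a B → T.basic a B' ⊆ T.basic a B → P a B')
    (s : T.AR) (A : T.R) (hA : (T.basic s A).Nonempty)
    (dense : ∀ a B, T.Initial s a → T.le B A → (T.basic a B).Nonempty →
      ∃ C ∈ T.basic a B, P a C) :
    ∃ B ∈ T.basic s A, ∀ a, T.Initial s a → (T.basic a B).Nonempty → P a B := by
  classical
  obtain ⟨d0, hd0⟩ := h.exists_depth (h.nonempty_iff.1 hA)
  have step := fun B hBA d => h.fusion_step P mono s A dense B hBA d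
  choose! f hf1 hf2 using step
  -- the fusion sequence
  let S : ℕ → T.R := fun n => Nat.rec A (fun n B => f B (d0 + n)) n
  have hS0 : S 0 = A := rfl
  have hSs : ∀ n, S (n + 1) = f (S n) (d0 + n) := fun n => rfl
  have hle : ∀ n, T.le (S n) A := by
    intro n
    induction n with
    | zero => exact h.le_refl _
    | succ n ih =>
      rw [hSs]
      exact h.le_trans _ _ _ (h.mem_basic_r.1 (hf1 (S n) ih (d0 + n))).2 ih
  have hstep : ∀ n, T.r (S (n + 1)) (d0 + n) = T.r (S n) (d0 + n) ∧ T.le (S (n + 1)) (S n) := by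
    intro n
    rw [hSs]
    exact h.mem_basic_r.1 (hf1 (S n) (hle n) (d0 + n))
  have hlemn : ∀ n m, n ≤ m → T.le (S m) (S n) := by
    intro n m hnm
    induction m, hnm using Nat.le_induction with
    | base => exact h.le_refl _
    | succ m _ ih => exact h.le_trans _ _ _ (hstep m).2 ih
  have hrmn : ∀ n m, n ≤ m → ∀ k ≤ d0 + n, T.r (S m) k = T.r (S n) k := by
    intro n m hnm
    induction m, hnm using Nat.le_induction with
    | base => intro k _; rfl
    | succ m hm ih =>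
      intro k hk
      rw [← ih k hk]
      exact h.r_eq_of_le (hstep m).1 (by omega)
  obtain ⟨B, hB⟩ := h.exists_limit (fun k => T.r (S k) k) (by
    intro N
    refine ⟨S N, fun n hn => ?_⟩
    exact hrmn n N hn.le n (by omega))
  have hBr : ∀ n, ∀ k ≤ d0 + n, T.r B k = T.r (S n) k := by
    intro n k hk
    rw [hB k]
    rcases le_total n k with h1 | h1
    · exact hrmn n k h1 k hk
    · exact (hrmn k n h1 k (by omega)).symm
  have hBle : ∀ n, T.le B (S n) := by
    intro n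
    rw [h.le_iff]
    intro k
    have h1 : T.r B k = T.r (S (max k n)) k := hBr _ _ (by omega)
    rw [h1]
    exact (h.le_iff _ _).1 (hlemn n (max k n) (by omega)) k
  have hBP : ∀ a, T.Initial s a → (T.basic a B).Nonempty → P a B := by
    intro a hsa hne
    obtain ⟨d, hd⟩ := h.exists_depth (h.nonempty_iff.1 hne)
    have hdd : d0 ≤ d := by
      by_contra hlt
      push Not at hlt
      obtain ⟨c, hc1, hc2⟩ := h.fin_initial s a _ hsa hd.1
      rw [h.initial_iff] at hc1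
      obtain ⟨hc3, hc4⟩ := hc1
      refine hd0.2 (T.len c) (by omega) ?_
      rw [← hS0, ← hBr 0 (T.len c) (by omega), hc4]
      exact hc2
    obtain ⟨n, rfl⟩ := Nat.exists_eq_add_of_le hdd
    have hd' : T.Depth lefin (S n) a (d0 + n) := h.depth_congr (hBr n _ le_rfl) hd
    have h1 := hf2 (S n) (hle n) (d0 + n) a hsa hd'
    rw [← hSs] at h1
    exact mono _ _ _ h1 (h.basic_mono (hBle (n + 1)))
  have hBne : (T.basic s B).Nonempty := by
    refine h.amalg₁ s A d0 hd0 B ?_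
    rw [h.mem_basic_r]
    exact ⟨hBr 0 d0 (by omega), hBle 0⟩
  obtain ⟨C, hC⟩ := hBne
  refine ⟨C, h.basic_mono (hBle 0) hC, fun a hsa hne => ?_⟩
  have hsub : T.basic a C ⊆ T.basic a B := h.basic_mono hC.2
  exact mono _ _ _ (hBP a hsa (hne.mono hsub)) hsub

/-- The general acceptance-rejection lemma. -/
theorem Axioms.accept (Φ : T.AR → T.R → Prop)
    (mono : ∀ a B B', Φ a B → T.basic a B' ⊆ T.basic a B → Φ a B')
    (step : ∀ a C, (T.basic a C).Nonempty → (∀ t ∈ T.Succ a C, Φ t C) →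
      ∃ C' ∈ T.basic a C, Φ a C')
    (s : T.AR) (A : T.R) (hA : (T.basic s A).Nonempty) (hs : ∀ C ∈ T.basic s A, ¬ Φ s C) :
    ∃ B ∈ T.basic s A, ∀ a, T.Initial s a → ∀ C ∈ T.basic a B, ¬ Φ a C := by
  obtain ⟨B₁, hB₁, hP₁⟩ := h.fusion (fun a B => Φ a B ∨ ∀ C ∈ T.basic a B, ¬ Φ a C)
    (by
      intro a B B' hP hsub
      rcases hP with hP | hP
      · exact Or.inl (mono _ _ _ hP hsub)
      · exact Or.inr fun C hC => hP C (hsub hC))
    s A hA (by
      intro a B _ _ hne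
      by_cases hex : ∃ C ∈ T.basic a B, Φ a C
      · obtain ⟨C, hC, hΦ⟩ := hex
        exact ⟨C, hC, Or.inl hΦ⟩
      · push Not at hex
        obtain ⟨C, hC⟩ := hne
        exact ⟨C, hC, Or.inr fun D hD => hex D (h.basic_mono hC.2 hD)⟩)
  obtain ⟨B₂, hB₂, hP₂⟩ := h.fusion
    (fun a B => (∀ C ∈ T.basic a B₁, ¬ Φ a C) → ∀ t ∈ T.Succ a B, ∀ C ∈ T.basic t B₁, ¬ Φ t C)
    (by
      intro a B B' hP hsub ha t ht
      exact hP ha t (h.succ_mono' hsub ht))
    s B₁ ⟨B₁, h.self_mem hB₁⟩ (by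
      intro a B hsa hB hne
      by_cases ha : ∀ C ∈ T.basic a B₁, ¬ Φ a C
      · obtain ⟨C, hC, h1 | h1⟩ := h.pigeon' hne {t | Φ t B₁}
        · exfalso
          have hCB₁ : T.le C B₁ := h.le_trans _ _ _ hC.2 hB
          obtain ⟨C', hC', hΦ⟩ := step a C ⟨C, h.self_mem hC⟩
            (fun t ht => mono _ _ _ (h1 ht) (h.basic_mono hCB₁))
          exact ha C' (h.basic_mono hCB₁ hC') hΦ
        · refine ⟨C, hC, fun _ t ht => ?_⟩
          have ht' : ¬ Φ t B₁ := fun hΦ => by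
            have : t ∈ T.Succ a C ∩ {t | Φ t B₁} := ⟨ht, hΦ⟩
            rw [h1] at this
            exact this
          have htB₁ : t ∈ T.Succ a B₁ := h.succ_mono (h.le_trans _ _ _ hC.2 hB) ht
          have hst : T.Initial s t := h.initial_trans hsa (h.mem_succ.1 ht).1
          rcases hP₁ t hst (h.basic_succ_nonempty htB₁) with h2 | h2
          · exact absurd h2 ht'
          · exact h2
      · obtain ⟨C, hC⟩ := hne
        exact ⟨C, hC, fun h' => absurd h' ha⟩)
  refine ⟨B₂, h.basic_mono hB₁.2 hB₂, ?_⟩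
  have key : ∀ n a, T.Initial s a → T.len a = T.len s + n → (T.basic a B₂).Nonempty →
      ∀ C ∈ T.basic a B₁, ¬ Φ a C := by
    intro n
    induction n with
    | zero =>
      intro a hsa hlen _ C hC
      have : a = s := by
        obtain ⟨D, n, rfl⟩ := h.surj a
        rw [h.initial_iff] at hsa
        rw [h.len_r] at hlen
        rw [← hsa.2, hlen]; rfl
      subst this
      exact hs C (h.basic_mono hB₁.2 hC)
    | succ n ih =>
      intro a hsa hlen hne
      obtain ⟨D, hD⟩ := hne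
      have hD' := h.mem_basic.1 hD
      have hsD : T.r D (T.len s) = s := by
        have := hD'.1
        rw [← this, h.initial_iff] at hsa
        exact hsa.2
      set b := T.r D (T.len s + n) with hb
      have hblen : T.len b = T.len s + n := h.len_r _ _
      have hsb : T.Initial s b := by
        rw [hb, h.initial_iff]
        exact ⟨by omega, hsD⟩
      have hDb : D ∈ T.basic b B₂ := ⟨⟨_, rfl⟩, hD'.2⟩
      have h1 := ih b hsb hblen ⟨D, hDb⟩
      have h2 := hP₂ b hsb ⟨D, hDb⟩ h1 a ⟨D, hDb, by rw [hblen, ← hD'.1, hlen]; rfl⟩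
      exact h2
  intro a hsa C hC
  obtain ⟨n, hn⟩ := Nat.exists_eq_add_of_le (h.initial_len hsa)
  exact key n a hsa hn ⟨C, hC⟩ C (h.basic_mono hB₂.2 hC)

end Triple

end Pool.Agent.Lib.MP_b89b7d_lc
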