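import Pool.Agent.Lib.MP_b89b7d_lc.Types

set_option autoImplicit false
set_option linter.unusedSectionVars false
set_option linter.style.haveILetI false

namespace Pool.Agent.Lib.MP_b89b7d_lc

open Set TopologicalSpace

/-- A nonmeagre set is nonmeagre in every nonempty open subset of some nonempty open set. -/
theorem exists_everywhere {X : Type*} [TopologicalSpace X] [SecondCountableTopology X]
    (S V : Set X) (hV : IsOpen V) (hS : ¬ IsMeagre (S ∩ V)) :
    ∃ V' ⊆ V, IsOpen V' ∧ V'.Nonempty ∧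
      ∀ V'' ⊆ V', IsOpen V'' → V''.Nonempty → ¬ IsMeagre (S ∩ V'') := by
  classical
  set b := countableBasis X with hb
  set W : Set X := ⋃ U ∈ {U ∈ b | IsMeagre (S ∩ U)}, U with hW
  have hWo : IsOpen W := isOpen_biUnion fun U hU => isOpen_of_mem_countableBasis hU.1
  have hWm : IsMeagre (S ∩ W) := by
    rw [hW, Set.inter_iUnion₂]
    exact isMeagre_biUnion ((countable_countableBasis X).mono (fun U hU => hU.1)) fun U hU => hU.2
  refine ⟨V \ closure W, Set.sdiff_subset, hV.sdiff isClosed_closure, ?_, ?_⟩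
  · by_contra hne
    rw [Set.not_nonempty_iff_eq_empty, Set.sdiff_eq_empty] at hne
    apply hS
    have h1 : S ∩ V ⊆ (S ∩ W) ∪ (closure W \ W) := by
      rintro x ⟨hx1, hx2⟩
      by_cases hxW : x ∈ W
      · exact Or.inl ⟨hx1, hxW⟩
      · exact Or.inr ⟨hne hx2, hxW⟩
    refine IsMeagre.mono h1 (hWm.union ?_)
    apply IsNowhereDense.isMeagre
    have hcl : IsClosed (closure W \ W) := isClosed_closure.sdiff hWo
    rw [hcl.isNowhereDense_iff]
    ext x
    simp only [mem_empty_iff_false, iff_false]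
    intro hx
    rw [mem_interior] at hx
    obtain ⟨O, hO1, hO2, hO3⟩ := hx
    have h2 : x ∈ closure W := (hO1 hO3).1
    obtain ⟨y, hy1, hy2⟩ := mem_closure_iff.1 h2 O hO2 hO3
    exact (hO1 hy1).2 hy2
  · intro V'' hV'' ho hne hm
    obtain ⟨x, hx⟩ := hne
    obtain ⟨U, hU1, hU2, hU3⟩ := (isBasis_countableBasis X).exists_subset_of_mem_open hx ho
    have hUW : U ⊆ W := by
      intro y hy
      rw [hW, Set.mem_iUnion₂]
      exact ⟨U, ⟨hU1, IsMeagre.mono (Set.inter_subset_inter_right _ hU3) hm⟩, hy⟩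
    exact (hV'' hx).2 (subset_closure (hUW hU2))

namespace Triple

variable {T : Triple} {lefin : T.AR → T.AR → Prop} (h : T.Axioms lefin)

/-- Members of the coideal witnessed by some `B ∈ [s, A]` with `τ ⊏ B`. -/
def FF (T : Triple) (s : T.AR) (A : T.R) (τ : T.AR) : Set (T.AR → Bool) :=
  {x | ∃ B ∈ T.basic s A, (∃ n, T.r B n = τ) ∧ ∀ u ∈ T.Succ s B, x u = true}

/-- The open set where `FF τ` is everywhere nonmeagre. -/
def UU (T : Triple) (s : T.AR) (A : T.R) (τ : T.AR) : Set (T.AR → Bool) :=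
  ⋃₀ {V | IsOpen V ∧ ∀ V' ⊆ V, IsOpen V' → V'.Nonempty → ¬ IsMeagre (T.FF s A τ ∩ V')}

/-- Immediate successors. -/
def Next (T : Triple) (τ τ' : T.AR) : Prop :=
  ∃ B, T.r B (T.len τ) = τ ∧ T.r B (T.len τ + 1) = τ'

theorem isOpen_UU (s : T.AR) (A : T.R) (τ : T.AR) : IsOpen (T.UU s A τ) :=
  isOpen_sUnion fun _ hV => hV.1

theorem UU_spec (s : T.AR) (A : T.R) (τ : T.AR) (V' : Set (T.AR → Bool)) (hV' : IsOpen V')
    (hne : (V' ∩ T.UU s A τ).Nonempty) : ¬ IsMeagre (T.FF s A τ ∩ (V' ∩ T.UU s A τ)) := by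
  obtain ⟨x, hx1, V, hV, hxV⟩ := hne
  intro hm
  refine hV.2 (V' ∩ V) Set.inter_subset_right (hV'.inter hV.1) ⟨x, hx1, hxV⟩
    (IsMeagre.mono ?_ hm)
  refine Set.inter_subset_inter_right _ (Set.inter_subset_inter_right _ ?_)
  exact Set.subset_sUnion_of_mem hV

include h

theorem Axioms.len_next {τ τ' : T.AR} (hn : T.Next τ τ') : T.len τ' = T.len τ + 1 := by
  obtain ⟨B, _, rfl⟩ := hn
  exact h.len_r _ _

theorem Axioms.r_next {τ τ' : T.AR} (hn : T.Next τ τ') {C : T.R}
    (hC : T.r C (T.len τ + 1) = τ') : T.r C (T.len τ) = τ := by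
  obtain ⟨B, hB, hB'⟩ := hn
  rw [← hB'] at hC
  rw [h.r_eq_of_le hC (Nat.le_succ _), hB]

/-- The dense open set attached to `τ`. -/
theorem Axioms.dense_next (s : T.AR) (A : T.R) (τ : T.AR) :
    IsOpen ((closure (T.UU s A τ))ᶜ ∪ ⋃ τ' ∈ {τ' | T.Next τ τ'}, T.UU s A τ') ∧
    Dense ((closure (T.UU s A τ))ᶜ ∪ ⋃ τ' ∈ {τ' | T.Next τ τ'}, T.UU s A τ') := by
  haveI := h.countable
  constructor
  · exact isClosed_closure.isOpen_compl.union (isOpen_biUnion fun _ _ => isOpen_UU _ _ _)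
  · rw [dense_iff_inter_open]
    intro O hO hOne
    by_cases h1 : (O ∩ (closure (T.UU s A τ))ᶜ).Nonempty
    · obtain ⟨x, hx1, hx2⟩ := h1
      exact ⟨x, hx1, Or.inl hx2⟩
    · have h2 : O ⊆ closure (T.UU s A τ) := by
        intro x hx
        by_contra hcon
        exact h1 ⟨x, hx, hcon⟩
      obtain ⟨x, hx⟩ := hOne
      obtain ⟨y, hy1, hy2⟩ := mem_closure_iff.1 (h2 hx) O hO hx
      have h3 := UU_spec s A τ O hO ⟨y, hy1, hy2⟩
      have h4 : T.FF s A τ ∩ (O ∩ T.UU s A τ) ⊆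
          ⋃ τ' ∈ {τ' | T.Next τ τ'}, T.FF s A τ' ∩ (O ∩ T.UU s A τ) := by
        rintro z ⟨⟨B, hB, ⟨n, hn⟩, hz⟩, hz2⟩
        rw [Set.mem_iUnion₂]
        have hlen := h.len_eq hn
        refine ⟨T.r B (n + 1), ⟨B, ?_, ?_⟩, ⟨B, hB, ⟨_, rfl⟩, hz⟩, hz2⟩
        · rw [hlen]; exact hn
        · rw [hlen]
      have h5 : ∃ τ' ∈ {τ' | T.Next τ τ'}, ¬ IsMeagre (T.FF s A τ' ∩ (O ∩ T.UU s A τ)) := by
        by_contra hcon
        push Not at hcon
        exact h3 (IsMeagre.mono h4 (isMeagre_biUnion (Set.to_countable _) hcon))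
      obtain ⟨τ', hτ', h6⟩ := h5
      obtain ⟨V', hV'1, hV'2, ⟨w, hw⟩, hV'4⟩ :=
        exists_everywhere (T.FF s A τ') (O ∩ T.UU s A τ) (hO.inter (isOpen_UU _ _ _)) h6
      refine ⟨w, (hV'1 hw).1, Or.inr ?_⟩
      rw [Set.mem_iUnion₂]
      exact ⟨τ', hτ', V', ⟨hV'2, hV'4⟩, hw⟩

/-- Generic sets are in the coideal. -/
theorem Axioms.generic_mem {s : T.AR} {A : T.R} (x : T.AR → Bool)
    (hxs : x ∈ T.UU s A s)
    (hx : ∀ τ, x ∈ (closure (T.UU s A τ))ᶜ ∪ ⋃ τ' ∈ {τ' | T.Next τ τ'}, T.UU s A τ') :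
    ∃ B ∈ T.basic s A, ∀ u ∈ T.Succ s B, x u = true := by
  classical
  have hstep : ∀ τ : {τ // x ∈ T.UU s A τ}, ∃ τ' : {τ // x ∈ T.UU s A τ}, T.Next τ.1 τ'.1 := by
    rintro ⟨τ, hτ⟩
    rcases hx τ with h1 | h1
    · exact absurd (subset_closure hτ) h1
    · rw [Set.mem_iUnion₂] at h1
      obtain ⟨τ', h2, h3⟩ := h1
      exact ⟨⟨τ', h3⟩, h2⟩
  choose nx hnx using hstep
  let g : ℕ → {τ // x ∈ T.UU s A τ} := fun n => Nat.rec ⟨s, hxs⟩ (fun _ τ => nx τ) n
  have hg0 : (g 0).1 = s := rfl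
  have hgs : ∀ n, T.Next (g n).1 (g (n + 1)).1 := fun n => hnx (g n)
  have hlen : ∀ n, T.len (g n).1 = T.len s + n := by
    intro n
    induction n with
    | zero => rfl
    | succ n ih => rw [h.len_next (hgs n), ih]; rfl
  -- witnesses
  have hwit : ∀ N (O : Set (T.AR → Bool)), IsOpen O → x ∈ O → ∃ B ∈ T.basic s A,
      T.r B (T.len s + N) = (g N).1 ∧ ∃ y ∈ O, ∀ u ∈ T.Succ s B, y u = true := by
    intro N O hO hxO
    have h1 := UU_spec s A (g N).1 O hO ⟨x, hxO, (g N).2⟩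
    obtain ⟨y, ⟨B, hB, ⟨n, hn⟩, hy⟩, hyO, _⟩ := nonempty_of_not_isMeagre h1
    refine ⟨B, hB, ?_, y, hyO, hy⟩
    rw [← hlen N, h.len_eq hn, hn]
  have hcoh : ∀ N k (B : T.R), T.r B (T.len s + (N + k)) = (g (N + k)).1 →
      T.r B (T.len s + N) = (g N).1 := by
    intro N k
    induction k with
    | zero => intro B hB; exact hB
    | succ k ih =>
      intro B hB
      apply ih
      have h1 := hgs (N + k)
      rw [← hlen (N + k)]
      apply h.r_next h1
      rw [hlen]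
      exact hB
  have hlim := h.exists_limit
    (fun k => if k < T.len s then T.r A k else (g (k - T.len s)).1)
  -- the initial part has to be taken from a member of `[s, A]`
  obtain ⟨B₀, hB₀, -, -⟩ := hwit 0 univ isOpen_univ trivial
  have hB₀' := h.mem_basic.1 hB₀
  clear hlim
  obtain ⟨B, hB⟩ := h.exists_limit
    (fun k => if k < T.len s then T.r B₀ k else (g (k - T.len s)).1) (by
      intro N
      obtain ⟨C, hC, hCr, -⟩ := hwit N univ isOpen_univ trivial
      refine ⟨C, fun n hn => ?_⟩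
      have hC' := h.mem_basic.1 hC
      by_cases hns : n < T.len s
      · rw [if_pos hns]
        exact h.r_eq_of_le (hC'.1.trans hB₀'.1.symm) hns.le
      · rw [if_neg hns]
        push Not at hns
        obtain ⟨m, rfl⟩ := Nat.exists_eq_add_of_le hns
        obtain ⟨k, rfl⟩ := Nat.exists_eq_add_of_le (show m ≤ N by omega)
        rw [Nat.add_sub_cancel_left]
        exact hcoh m k C hCr)
  have hBg : ∀ n, T.r B (T.len s + n) = (g n).1 := by
    intro n
    rw [hB, if_neg (by omega), Nat.add_sub_cancel_left]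
  have hBs : T.r B (T.len s) = s := hBg 0
  have hagree : ∀ N (C : T.R), T.r C (T.len s + N) = (g N).1 → ∀ m ≤ T.len s + N,
      T.r B m = T.r C m := by
    intro N C hC m hm
    exact h.r_eq_of_le ((hBg N).trans hC.symm) hm
  refine ⟨B, ?_, ?_⟩
  · rw [h.mem_basic]
    refine ⟨hBs, ?_⟩
    rw [h.le_iff]
    intro n
    obtain ⟨C, hC, hCr, -⟩ := hwit n univ isOpen_univ trivial
    rw [hagree n C hCr n (by omega)]
    exact (h.le_iff _ _).1 hC.2 n
  · intro u hu
    obtain ⟨hu1, hu2, m, hm⟩ := h.mem_succ.1 hu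
    have hopen : IsOpen {y : T.AR → Bool | y u = x u} := by
      have : {y : T.AR → Bool | y u = x u} = (fun y : T.AR → Bool => y u) ⁻¹' {x u} := rfl
      rw [this]
      exact (isOpen_discrete _).preimage (continuous_apply u)
    obtain ⟨C, hC, hCr, y, hy1, hy2⟩ := hwit m _ hopen rfl
    have h1 : u ∈ T.Succ s C := by
      rw [h.mem_succ]
      refine ⟨hu1, hu2, m, ?_⟩
      rw [← hagree m C hCr m (by omega)]
      exact hm
    have h2 : y u = x u := hy1
    rw [← h2]
    exact hy2 u h1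

/-- The coideal is nonmeagre, so `UU s` is nonempty. -/
theorem Axioms.UU_nonempty {s : T.AR} {A : T.R} (hA : (T.basic s A).Nonempty) :
    (T.UU s A s).Nonempty := by
  haveI := h.countable
  have hnm : ¬ IsMeagre (T.FF s A s) := by
    intro hm
    let φ : (T.AR → Bool) → (T.AR → Bool) := fun x u => !(x u)
    have hφc : Continuous φ := by
      apply continuous_pi
      intro u
      exact (continuous_of_discreteTopology (f := fun b : Bool => !b)).comp (continuous_apply u)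
    have hφφ : ∀ x, φ (φ x) = x := by
      intro x
      funext u
      simp [φ]
    have hφo : IsOpenMap φ := by
      intro O hO
      have : φ '' O = φ ⁻¹' O := by
        ext y
        constructor
        · rintro ⟨x, hx, rfl⟩
          change φ (φ x) ∈ O
          rw [hφφ]; exact hx
        · intro hy
          exact ⟨φ y, hy, hφφ y⟩
      rw [this]
      exact hO.preimage hφc
    have hm2 : IsMeagre (φ ⁻¹' (T.FF s A s)) := hm.preimage_of_isOpenMap hφc hφo
    have hun : (univ : Set (T.AR → Bool)) ⊆ T.FF s A s ∪ φ ⁻¹' (T.FF s A s) := by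
      intro x _
      obtain ⟨C, hC, h1 | h1⟩ := h.pigeon' hA {u | x u = true}
      · exact Or.inl ⟨C, hC, ⟨_, (h.mem_basic.1 hC).1⟩, fun u hu => h1 hu⟩
      · refine Or.inr ⟨C, hC, ⟨_, (h.mem_basic.1 hC).1⟩, fun u hu => ?_⟩
        change (!(x u)) = true
        by_contra hcon
        have h2 : x u = true := by
          cases hxu : x u with
          | true => rfl
          | false => rw [hxu] at hcon; simp at hcon
        have : u ∈ T.Succ s C ∩ {u | x u = true} := ⟨hu, h2⟩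
        rw [h1] at this
        exact this
    exact not_isMeagre_of_isOpen (isOpen_univ : IsOpen (univ : Set (T.AR → Bool)))
      univ_nonempty (IsMeagre.mono hun (hm.union hm2))
  obtain ⟨V', _, hV'2, ⟨x, hx⟩, hV'4⟩ := exists_everywhere (T.FF s A s) univ isOpen_univ
    (by rwa [Set.inter_univ])
  exact ⟨x, V', ⟨hV'2, hV'4⟩, hx⟩

end Triple

end Pool.Agent.Lib.MP_b89b7d_lc
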