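import Mathlib

set_option autoImplicit false

open MeasureTheory

namespace Pool.Agent.Lib.MP_b89b7d_lc

/-- The data `(R, ≤, r)` of a candidate topological Ramsey space; `r A n` is the `n`-th
approximation `r_n(A)`, an element of `AR`. -/
structure Triple where
  /-- the points -/
  R : Type
  /-- the finite approximations -/
  AR : Type
  /-- the approximation map, `r A n = r_n(A)` -/
  r : R → ℕ → AR
  /-- the quasi-order -/
  le : R → R → Prop

namespace Triple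

variable (T : Triple)

/-- `s ⊑ t` : `s = r_m(A)` and `t = r_n(A)` for some `A` and some `m ≤ n`. -/
def Initial (s t : T.AR) : Prop := ∃ (A : T.R) (m n : ℕ), m ≤ n ∧ T.r A m = s ∧ T.r A n = t

/-- The basic set `[s, A] = {B : s ⊑ B, B ≤ A}`. -/
def basic (s : T.AR) (A : T.R) : Set T.R := {B | (∃ n, T.r B n = s) ∧ T.le B A}

/-- `depth_B(a) = d`, relative to the finitized order `lefin`: `d` is least with
`a ≤_fin r_d(B)`. -/
def Depth (lefin : T.AR → T.AR → Prop) (B : T.R) (a : T.AR) (d : ℕ) : Prop :=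
  lefin a (T.r B d) ∧ ∀ k < d, ¬ lefin a (T.r B k)

/-- Todorcevic's axioms A.1 - A.4 for `(R, ≤, r)`, with `lefin` the finitization of `≤`,
together with: `R` is nonempty, `AR` is countable and is the range of `r`, `≤` is a quasi-order
and `R` is closed in `AR^ω` (with `AR` discrete). -/
structure Axioms (lefin : T.AR → T.AR → Prop) : Prop where
  nonempty : Nonempty T.R
  countable : Countable T.AR
  surj : ∀ a : T.AR, ∃ A n, T.r A n = a
  le_refl : ∀ A, T.le A A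
  le_trans : ∀ A B C, T.le A B → T.le B C → T.le A C
  /-- A.1 (1) -/
  zero : ∀ A B, T.r A 0 = T.r B 0
  /-- A.1 (2) -/
  ext : ∀ A B, (∀ n, T.r A n = T.r B n) → A = B
  /-- A.1 (3) -/
  seq : ∀ A B m n, T.r A m = T.r B n → m = n ∧ ∀ k < m, T.r A k = T.r B k
  /-- A.2: `lefin` is a quasi-order -/
  fin_refl : ∀ a, lefin a a
  fin_trans : ∀ a b c, lefin a b → lefin b c → lefin a c
  /-- A.2 (1) -/
  fin_finite : ∀ b, {a | lefin a b}.Finite
  /-- A.2 (2) -/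
  le_iff : ∀ A B, T.le A B ↔ ∀ n, ∃ m, lefin (T.r A n) (T.r B m)
  /-- A.2 (3) -/
  fin_initial : ∀ a b c, T.Initial a b → lefin b c → ∃ d, T.Initial d c ∧ lefin a d
  /-- A.3 (1) -/
  amalg₁ : ∀ a B d, T.Depth lefin B a d → ∀ A ∈ T.basic (T.r B d) B, (T.basic a A).Nonempty
  /-- A.3 (2) -/
  amalg₂ : ∀ a A B d, T.le A B → (T.basic a A).Nonempty → T.Depth lefin B a d →
    ∃ A' ∈ T.basic (T.r B d) B, (T.basic a A').Nonempty ∧ T.basic a A' ⊆ T.basic a A
  /-- A.4 -/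
  pigeon : ∀ a B d, T.Depth lefin B a d → ∀ O : Set T.AR, ∃ A ∈ T.basic (T.r B d) B,
    (∀ C ∈ T.basic a A, ∀ n, T.r C n = a → T.r C (n + 1) ∈ O) ∨
    (∀ C ∈ T.basic a A, ∀ n, T.r C n = a → T.r C (n + 1) ∉ O)
  /-- `R` is closed in `AR^ω` -/
  closed : @IsClosed (ℕ → T.AR) (@Pi.topologicalSpace ℕ (fun _ => T.AR) (fun _ => ⊥))
    (Set.range T.r)

/-- `(R, ≤, r)` is a topological Ramsey space. -/
def IsRamseySpace : Prop := ∃ lefin : T.AR → T.AR → Prop, T.Axioms lefin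

/-- A set of points is Ramsey null if every nonempty `[s, A]` contains some `B` with
`[s, B] ∩ 𝒳 = ∅`. -/
def Null (𝒳 : Set T.R) : Prop :=
  ∀ s A, (T.basic s A).Nonempty → ∃ B ∈ T.basic s A, T.basic s B ∩ 𝒳 = ∅

/-- `X ⊆ AR` is a `⊑`-tree. -/
def IsTree (X : Set T.AR) : Prop := ∀ a b, T.Initial a b → b ∈ X → a ∈ X

/-- `[X] = {A : r_k(A) ∈ X for all k}`. -/
def body (X : Set T.AR) : Set T.R := {A | ∀ k, T.r A k ∈ X}

/-- The sequence `(X_n)` of subsets of `AR` coded by `x ∈ 2^ω`, with respect to the bijection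
`e : ω × AR ≃ ω`. -/
def seqOf (e : ℕ × T.AR ≃ ℕ) (x : ℕ → Bool) (n : ℕ) : Set T.AR := {a | x (e (n, a)) = true}

/-- The `G_δ` set `G_x` coded by `x`. -/
def G (e : ℕ × T.AR ≃ ℕ) (x : ℕ → Bool) : Set T.R :=
  {A | (∀ n, T.IsTree (T.seqOf e x n)) ∧ ∀ n, A ∉ T.body (T.seqOf e x n)}

/-- The set `C_R` of codes for `G_δ` Ramsey positive sets. -/
def codes (e : ℕ × T.AR ≃ ℕ) : Set (ℕ → Bool) := {x | ¬ T.Null (T.G e x)}

/-- `B` is the only member of `[s, B]`. -/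
def IsAtom (s : T.AR) (B : T.R) : Prop := T.basic s B = {B}

end Triple

/-- `S ⊆ 2^ω` is `Σ¹₂` : the projection of a coanalytic subset of `2^ω × ω^ω`. -/
def IsSigma12 (S : Set (ℕ → Bool)) : Prop :=
  ∃ Q : Set ((ℕ → Bool) × (ℕ → ℕ)), AnalyticSet Qᶜ ∧ Prod.fst '' Q = S

/-- `S ⊆ 2^ω` is `Σ¹₂`-complete. -/
def IsSigma12Complete (S : Set (ℕ → Bool)) : Prop :=
  IsSigma12 S ∧ ∀ P : Set (ℕ → Bool), IsSigma12 P →
    ∃ f : (ℕ → Bool) → (ℕ → Bool), Continuous f ∧ f ⁻¹' S = P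

end Pool.Agent.Lib.MP_b89b7d_lc
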