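import Pool.Agent.Lib.MP_b89b7d_lc.Atomic

set_option autoImplicit false
set_option linter.unusedSectionVars false
set_option linter.style.haveILetI false

namespace Pool.Agent.Lib.MP_b89b7d_lc

open Set TopologicalSpace Filter Topology MeasureTheory

/-- The first `n` entries of a sequence. -/
def init (A : ℕ → Option Bool) (n : ℕ) : List (Option Bool) := (List.range n).map A

/-- The example: `R = {0, 1, *}^ω`, `r_n(A) = A ↾ n`, and `B ≤ A` iff for every `n` either
`A_n = *` or `B_n = A_n`. -/
abbrev starSpace : Triple where
  R := ℕ → Option Bool
  AR := List (Option Bool)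
  r := init
  le := fun B A => ∀ n, A n = none ∨ B n = A n

/-- The finitized order. -/
def starFin (a b : List (Option Bool)) : Prop :=
  a.length = b.length ∧ ∀ i : ℕ, b[i]? = some none ∨ a[i]? = b[i]?

theorem init_length (A : ℕ → Option Bool) (n : ℕ) : (init A n).length = n := by
  simp [init]

theorem init_get (A : ℕ → Option Bool) (n i : ℕ) (hi : i < n) : (init A n)[i]? = some (A i) := by
  simp [init, hi]

theorem init_get_none (A : ℕ → Option Bool) (n i : ℕ) (hi : n ≤ i) : (init A n)[i]? = none := by
  rw [List.getElem?_eq_none_iff, init_length]
  exact hi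

theorem init_eq_iff {A B : ℕ → Option Bool} {n : ℕ} :
    init A n = init B n ↔ ∀ i < n, A i = B i := by
  constructor
  · intro hAB i hi
    have h1 := init_get A n i hi
    rw [hAB, init_get B n i hi] at h1
    exact (Option.some.inj h1).symm
  · intro hAB
    apply List.ext_getElem?
    intro i
    rcases Nat.lt_or_ge i n with hi | hi
    · rw [init_get A n i hi, init_get B n i hi, hAB i hi]
    · rw [init_get_none A n i hi, init_get_none B n i hi]

theorem init_surj (a : List (Option Bool)) : ∃ A, init A a.length = a := by
  refine ⟨fun n => (a[n]?).getD none, ?_⟩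
  apply List.ext_getElem?
  intro i
  rcases Nat.lt_or_ge i a.length with hi | hi
  · rw [init_get _ _ i hi]
    simp [hi]
  · rw [init_get_none _ _ i hi]
    rw [eq_comm, List.getElem?_eq_none_iff]
    exact hi

theorem starFin_init {A B : ℕ → Option Bool} {n m : ℕ} :
    starFin (init A n) (init B m) ↔ n = m ∧ ∀ i < n, B i = none ∨ A i = B i := by
  constructor
  · rintro ⟨h1, h2⟩
    rw [init_length, init_length] at h1
    subst h1
    refine ⟨rfl, fun i hi => ?_⟩
    have h3 := h2 i
    rw [init_get A n i hi, init_get B n i hi] at h3
    rcases h3 with h3 | h3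
    · exact Or.inl (Option.some.inj h3)
    · exact Or.inr (Option.some.inj h3)
  · rintro ⟨rfl, h2⟩
    refine ⟨by rw [init_length, init_length], fun i => ?_⟩
    rcases Nat.lt_or_ge i n with hi | hi
    · rw [init_get A n i hi, init_get B n i hi]
      rcases h2 i hi with h3 | h3
      · exact Or.inl (by rw [h3])
      · exact Or.inr (by rw [h3])
    · right
      rw [init_get_none A n i hi, init_get_none B n i hi]

theorem star_initial {a : List (Option Bool)} {B : ℕ → Option Bool} {n : ℕ}
    (hab : starSpace.Initial a (init B n)) : a.length ≤ n ∧ init B a.length = a := by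
  obtain ⟨A, k, m, hkm, rfl, hm⟩ := hab
  change init A m = init B n at hm
  change (init A k).length ≤ n ∧ init B (init A k).length = init A k
  have h1 := congrArg List.length hm
  rw [init_length, init_length] at h1
  subst h1
  rw [init_length]
  refine ⟨hkm, ?_⟩
  rw [init_eq_iff] at hm ⊢
  intro i hi
  exact (hm i (by omega)).symm

/-- Glue: `a`, then `A`. -/
def glue (d : ℕ) (P A : ℕ → Option Bool) : ℕ → Option Bool := fun n => if n < d then P n else A n

theorem star_mem_basic {s : List (Option Bool)} {A B : ℕ → Option Bool} :
    B ∈ starSpace.basic s A ↔ init B s.length = s ∧ ∀ n, A n = none ∨ B n = A n := by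
  constructor
  · rintro ⟨⟨n, hn⟩, h2⟩
    change init B n = s at hn
    refine ⟨?_, h2⟩
    rw [← hn, init_length]
  · rintro ⟨h1, h2⟩
    exact ⟨⟨_, h1⟩, h2⟩

theorem star_depth {B : ℕ → Option Bool} {a : List (Option Bool)} {d : ℕ}
    (hd : starSpace.Depth starFin B a d) :
    d = a.length ∧ ∀ i < d, B i = none ∨ a[i]? = some (B i) := by
  obtain ⟨⟨h1, h2⟩, _⟩ := hd
  change a.length = (init B d).length at h1
  rw [init_length] at h1
  refine ⟨h1.symm, fun i hi => ?_⟩
  have h3 := h2 i
  change (init B d)[i]? = some none ∨ a[i]? = (init B d)[i]? at h3
  rw [init_get B d i hi] at h3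
  rcases h3 with h3 | h3
  · exact Or.inl (Option.some.inj h3)
  · exact Or.inr h3

theorem star_axioms : starSpace.Axioms starFin where
  nonempty := ⟨(fun _ => none : ℕ → Option Bool)⟩
  countable := (inferInstance : Countable (List (Option Bool)))
  surj := by
    intro a
    obtain ⟨A, hA⟩ := init_surj a
    exact ⟨A, _, hA⟩
  le_refl := fun A n => Or.inr rfl
  le_trans := by
    intro A B C h1 h2 n
    rcases h2 n with h3 | h3
    · exact Or.inl h3
    · rcases h1 n with h4 | h4
      · left
        rw [← h3]; exact h4
      · right
        rw [h4]; exact h3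
  zero := fun A B => rfl
  ext := by
    intro A B hAB
    funext n
    have h1 : init A (n + 1) = init B (n + 1) := hAB (n + 1)
    rw [init_eq_iff] at h1
    exact h1 n (Nat.lt_succ_self n)
  seq := by
    intro A B m n hmn
    have h1 := congrArg List.length hmn
    change (init A m).length = (init B n).length at h1
    rw [init_length, init_length] at h1
    subst h1
    refine ⟨rfl, fun k hk => ?_⟩
    change init A k = init B k
    have h2 : init A m = init B m := hmn
    rw [init_eq_iff] at h2 ⊢
    exact fun i hi => h2 i (by omega)
  fin_refl := fun a => ⟨rfl, fun i => Or.inr rfl⟩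
  fin_trans := by
    rintro a b c ⟨h1, h2⟩ ⟨h3, h4⟩
    refine ⟨h1.trans h3, fun i => ?_⟩
    rcases h4 i with h5 | h5
    · exact Or.inl h5
    · rcases h2 i with h6 | h6
      · left; rw [← h5]; exact h6
      · right; rw [h6]; exact h5
  fin_finite := by
    intro b
    exact (List.finite_length_eq (Option Bool) b.length).subset fun a ha => ha.1
  le_iff := by
    intro A B
    constructor
    · intro hAB n
      refine ⟨n, ?_⟩
      change starFin (init A n) (init B n)
      rw [starFin_init]
      exact ⟨rfl, fun i _ => hAB i⟩
    · intro hAB n
      obtain ⟨m, hm⟩ := hAB (n + 1)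
      change starFin (init A (n + 1)) (init B m) at hm
      rw [starFin_init] at hm
      exact hm.2 n (Nat.lt_succ_self n)
  fin_initial := by
    intro a b c hab hbc
    obtain ⟨C, hC⟩ := init_surj c
    obtain ⟨B, hB⟩ := init_surj b
    rw [← hB] at hab
    obtain ⟨h1, h2⟩ := star_initial hab
    rw [← hB, ← hC, starFin_init] at hbc
    refine ⟨init C a.length, ⟨C, a.length, c.length, ?_, rfl, hC⟩, ?_⟩
    · rw [← hbc.1]; exact h1
    · rw [← h2, init_length, starFin_init]
      exact ⟨rfl, fun i hi => hbc.2 i (by omega)⟩
  amalg₁ := by
    intro a B d hd A hA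
    obtain ⟨rfl, h2⟩ := star_depth hd
    obtain ⟨P, hP⟩ := init_surj a
    have hA' := star_mem_basic.1 hA
    have hA1 : init A a.length = init B a.length := by
      have h3 := hA'.1
      change init A (init B a.length).length = init B a.length at h3
      rwa [init_length] at h3
    rw [init_eq_iff] at hA1
    refine ⟨glue a.length P A, star_mem_basic.2 ⟨?_, fun n => ?_⟩⟩
    · rw [← hP, init_length, init_eq_iff]
      intro i hi
      simp only [glue]
      rw [if_pos hi]
    · by_cases hn : n < a.length
      · have h4 := h2 n hn
        have h5 : a[n]? = some (P n) := by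
          rw [← hP, init_get P _ n hn]
        rw [h5] at h4
        simp only [glue, if_pos hn]
        rw [hA1 n hn]
        rcases h4 with h4 | h4
        · exact Or.inl h4
        · exact Or.inr (Option.some.inj h4)
      · right
        simp only [glue, if_neg hn]
  amalg₂ := by
    intro a A B d hAB hne hd
    obtain ⟨rfl, h2⟩ := star_depth hd
    obtain ⟨D, hD⟩ := hne
    obtain ⟨hD1, hD2⟩ := star_mem_basic.1 hD
    refine ⟨glue a.length B A, star_mem_basic.2 ⟨?_, fun n => ?_⟩, ⟨glue a.length D A,
      star_mem_basic.2 ⟨?_, fun n => ?_⟩⟩, fun C hC => ?_⟩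
    · change init (glue a.length B A) (init B a.length).length = init B a.length
      rw [init_length, init_eq_iff]
      intro i hi
      simp only [glue, if_pos hi]
    · by_cases hn : n < a.length
      · right
        simp only [glue, if_pos hn]
      · simp only [glue, if_neg hn]
        exact hAB n
    · rw [← hD1, init_length, init_eq_iff]
      intro i hi
      simp only [glue]
      rw [if_pos hi]
    · by_cases hn : n < a.length
      · simp only [glue, if_pos hn]
        have h5 : a[n]? = some (D n) := by
          rw [← hD1, init_get D _ n hn]
        have h4 := h2 n hn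
        rw [h5] at h4
        rcases h4 with h4 | h4
        · exact Or.inl h4
        · exact Or.inr (Option.some.inj h4)
      · right
        simp only [glue, if_neg hn]
    · obtain ⟨hC1, hC2⟩ := star_mem_basic.1 hC
      refine star_mem_basic.2 ⟨hC1, fun n => ?_⟩
      by_cases hn : n < a.length
      · have h5 : C n = D n := by
          have h6 : init C a.length = init D a.length := by rw [hC1, hD1]
          rw [init_eq_iff] at h6
          exact h6 n hn
        rw [h5]
        exact hD2 n
      · have h7 := hC2 n
        simp only [glue, if_neg hn] at h7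
        exact h7
  pigeon := by
    classical
    intro a B d hd O
    obtain ⟨rfl, h2⟩ := star_depth hd
    obtain ⟨P, hP⟩ := init_surj a
    let A : ℕ → Option Bool := fun n =>
      if n = a.length then (if B n = none then some false else B n) else B n
    have hAB : ∀ n, B n = none ∨ A n = B n := by
      intro n
      by_cases hn : n = a.length
      · by_cases hB : B n = none
        · exact Or.inl hB
        · right
          simp only [A, if_pos hn, if_neg hB]
      · right
        simp only [A, if_neg hn]
    have hAd : A a.length ≠ none := by
      by_cases hB : B a.length = none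
      · simp [A, hB]
      · simp [A, hB]
    have hsame : ∀ C ∈ starSpace.basic a A, ∀ n, starSpace.r C n = a →
        starSpace.r C (n + 1) = init (glue a.length P A) (a.length + 1) := by
      intro C hC n hn
      obtain ⟨hC1, hC2⟩ := star_mem_basic.1 hC
      have hn' : n = a.length := by
        have h3 := congrArg List.length hn
        change (init C n).length = a.length at h3
        rwa [init_length] at h3
      subst hn'
      change init C (a.length + 1) = init (glue a.length P A) (a.length + 1)
      rw [init_eq_iff]
      intro i hi
      rcases Nat.lt_succ_iff_lt_or_eq.1 hi with h3 | rfl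
      · have h6 : init C a.length = init P a.length := by rw [hC1, hP]
        rw [init_eq_iff] at h6
        simp only [glue, if_pos h3]
        exact h6 i h3
      · simp only [glue, lt_irrefl, if_false]
        rcases hC2 a.length with h4 | h4
        · exact absurd h4 hAd
        · exact h4
    refine ⟨A, star_mem_basic.2 ⟨?_, hAB⟩, ?_⟩
    · change init A (init B a.length).length = init B a.length
      rw [init_length, init_eq_iff]
      intro i hi
      have : i ≠ a.length := by omega
      simp only [A, if_neg this]
    · by_cases hO : init (glue a.length P A) (a.length + 1) ∈ O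
      · left
        intro C hC n hn
        rw [hsame C hC n hn]
        exact hO
      · right
        intro C hC n hn
        rw [hsame C hC n hn]
        exact hO
  closed := by
    letI : TopologicalSpace (List (Option Bool)) := ⊥
    haveI : DiscreteTopology (List (Option Bool)) := ⟨rfl⟩
    change IsClosed (Set.range init)
    rw [← closure_subset_iff_isClosed]
    intro b hb
    rw [mem_closure_iff] at hb
    have key : ∀ N, ∃ A, ∀ n ≤ N, init A n = b n := by
      intro N
      obtain ⟨c, hc1, A, rfl⟩ := hb (Set.pi (Finset.range (N + 1) : Set ℕ) fun i => {b i})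
        (isOpen_set_pi (Finset.finite_toSet _) fun i _ => isOpen_discrete _)
        (fun i _ => rfl)
      exact ⟨A, fun n hn => hc1 n (by simpa using hn)⟩
    choose A hA using key
    refine ⟨fun n => A (n + 1) n, ?_⟩
    funext n
    rw [← hA n n le_rfl, init_eq_iff]
    intro i hi
    have h1 : init (A n) (i + 1) = init (A (i + 1)) (i + 1) := by
      rw [hA n (i + 1) hi, hA (i + 1) (i + 1) le_rfl]
    rw [init_eq_iff] at h1
    exact (h1 i (Nat.lt_succ_self i)).symm

theorem star_atoms (s : starSpace.AR) (A : starSpace.R) (hne : (starSpace.basic s A).Nonempty) :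
    ∃ B ∈ starSpace.basic s A, starSpace.IsAtom s B := by
  classical
  obtain ⟨C, hC⟩ := hne
  obtain ⟨hC1, hC2⟩ := star_mem_basic.1 hC
  let C' : ℕ → Option Bool := C
  let s' : List (Option Bool) := s
  let B : ℕ → Option Bool := fun n =>
    if n < s'.length then C' n else (if C' n = none then some false else C' n)
  have hBC : ∀ n, C' n = none ∨ B n = C' n := by
    intro n
    by_cases hn : n < s'.length
    · right; simp only [B, if_pos hn]
    · by_cases hc : C' n = none
      · exact Or.inl hc
      · right; simp only [B, if_neg hn, if_neg hc]
  have hBs : init B s'.length = s' := by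
    have h0 : init B s'.length = init C' s'.length := by
      rw [init_eq_iff]
      intro i hi
      simp only [B, if_pos hi]
    exact h0.trans hC1
  have hBn : ∀ n, s'.length ≤ n → B n ≠ none := by
    intro n hn
    have h1 : ¬ n < s'.length := by omega
    by_cases hc : C' n = none
    · simp [B, h1, hc]
    · simp [B, h1, hc]
  have hBA : B ∈ starSpace.basic s A := by
    refine star_mem_basic.2 ⟨hBs, fun n => ?_⟩
    rcases hC2 n with h1 | h1
    · exact Or.inl h1
    · rcases hBC n with h2 | h2
      · left
        rw [← h1]; exact h2
      · right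
        rw [h2]; exact h1
  refine ⟨B, hBA, ?_⟩
  apply Set.eq_singleton_iff_unique_mem.2
  refine ⟨star_mem_basic.2 ⟨hBs, fun n => Or.inr rfl⟩, fun D hD => ?_⟩
  obtain ⟨hD1, hD2⟩ := star_mem_basic.1 hD
  funext n
  rcases Nat.lt_or_ge n s'.length with hn | hn
  · have h6 : init D s'.length = init B s'.length := hD1.trans hBs.symm
    rw [init_eq_iff] at h6
    exact h6 n hn
  · rcases hD2 n with h1 | h1
    · exact absurd h1 (hBn n hn)
    · exact h1

end Pool.Agent.Lib.MP_b89b7d_lc
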