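import Pool.Agent.Lib.MP_b89b7d_lc.Reduction

set_option autoImplicit false
set_option linter.unusedSectionVars false
set_option linter.style.haveILetI false

namespace Pool.Agent.Lib.MP_b89b7d_lc

open Set TopologicalSpace Filter Topology MeasureTheory

/-- A function of finitely many coordinates is continuous. -/
theorem continuous_of_dep {f : (ℕ → Bool) → Bool} (N : ℕ)
    (hf : ∀ x x', (∀ i < N, x i = x' i) → f x = f x') : Continuous f := by
  apply IsLocallyConstant.continuous
  rw [IsLocallyConstant.iff_exists_open]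
  intro x
  refine ⟨Set.pi (Finset.range N : Set ℕ) (fun i => {x i}), ?_, ?_, ?_⟩
  · exact isOpen_set_pi (Finset.finite_toSet _) fun i _ => isOpen_discrete _
  · intro i _
    rfl
  · intro x' hx'
    exact hf x' x fun i hi => hx' i (by simpa using hi)

/-- An analytic subset of `2^ω × ω^ω` is the projection of a closed set. -/
theorem exists_closed {Q : Set ((ℕ → Bool) × (ℕ → ℕ))} (hQ : AnalyticSet Q) :
    ∃ D : Set ((ℕ → ℕ) × ((ℕ → Bool) × (ℕ → ℕ))), IsClosed D ∧ ∀ p, p ∈ Q ↔ ∃ y, (y, p) ∈ D := by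
  rw [AnalyticSet] at hQ
  rcases hQ with rfl | ⟨f, hf, rfl⟩
  · exact ⟨∅, isClosed_empty, fun p => by simp⟩
  · refine ⟨{q | f q.1 = q.2}, isClosed_eq (hf.comp continuous_fst) continuous_snd, fun p => ?_⟩
    constructor
    · rintro ⟨y, hy⟩
      exact ⟨y, hy⟩
    · rintro ⟨y, hy⟩
      exact ⟨y, hy⟩

namespace Triple

variable {T : Triple} {lefin : T.AR → T.AR → Prop}

/-- The trees of the reduction. -/
noncomputable def XX (T : Triple) (lefin : T.AR → T.AR → Prop) (idx : T.AR → ℕ)
    (I : ℕ → Set T.AR) (s : T.AR) (A : T.R) (D : Set ((ℕ → ℕ) × ((ℕ → Bool) × (ℕ → ℕ))))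
    (τ : ℕ → T.AR) (n : ℕ) (x : ℕ → Bool) : Set T.AR :=
  {b | (n % 2 = 0 ∧ ∀ B, T.r B (T.len b) = b → ¬ T.Ev lefin idx I s A D (n / 2) x B (T.len b)) ∨
    (n % 2 = 1 ∧ T.BadSeg I s A (τ (n / 2)) ∧
      (T.Initial b (τ (n / 2)) ∨ T.Initial (τ (n / 2)) b))}

variable (h : T.Axioms lefin)

include h

theorem Axioms.initial_total {a b c : T.AR} (ha : T.Initial a c) (hb : T.Initial b c) :
    T.Initial a b ∨ T.Initial b a := by
  obtain ⟨C, n, rfl⟩ := h.surj c
  rw [h.initial_iff] at ha hb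
  rcases le_total (T.len a) (T.len b) with h1 | h1
  · left
    rw [← hb.2, h.initial_iff]
    exact ⟨h1, ha.2⟩
  · right
    rw [← ha.2, h.initial_iff]
    exact ⟨h1, hb.2⟩

theorem Axioms.exists_r_eq (a : T.AR) : ∃ B, T.r B (T.len a) = a := by
  obtain ⟨B, n, rfl⟩ := h.surj a
  exact ⟨B, by rw [h.len_r]⟩

theorem Axioms.xx_tree (idx : T.AR → ℕ)
    (I : ℕ → Set T.AR) (s : T.AR) (A : T.R) (D : Set ((ℕ → ℕ) × ((ℕ → Bool) × (ℕ → ℕ))))
    (τ : ℕ → T.AR) (n : ℕ) (x : ℕ → Bool) : T.IsTree (T.XX lefin idx I s A D τ n x) := by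
  intro a b hab hb
  rcases hb with ⟨h1, h2⟩ | ⟨h1, h2, h3⟩
  · left
    refine ⟨h1, fun B hB hE => ?_⟩
    obtain ⟨C, hC⟩ := h.exists_r_eq b
    have hCa : T.r C (T.len a) = a := by
      rw [← hC, h.initial_iff] at hab
      exact hab.2
    have h4 := h.ev_congr (hB.trans hCa.symm) (fun i _ => rfl) hE
    exact h2 C hC (h.ev_mono (h.initial_len hab) h4)
  · right
    refine ⟨h1, h2, ?_⟩
    rcases h3 with h3 | h3
    · exact Or.inl (h.initial_trans hab h3)
    · exact h.initial_total hab h3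

theorem Axioms.body_even (idx : T.AR → ℕ)
    (I : ℕ → Set T.AR) (s : T.AR) (A : T.R) (D : Set ((ℕ → ℕ) × ((ℕ → Bool) × (ℕ → ℕ))))
    (τ : ℕ → T.AR) (n : ℕ) (x : ℕ → Bool) (B : T.R) :
    B ∈ T.body (T.XX lefin idx I s A D τ (2 * n) x) ↔ ∀ N, ¬ T.Ev lefin idx I s A D n x B N := by
  have h0 : 2 * n % 2 = 0 := by omega
  have h1 : 2 * n / 2 = n := by omega
  constructor
  · intro hB N hE
    rcases hB N with ⟨_, h3⟩ | ⟨h2, _⟩
    · have h4 := h3 B (by rw [h.len_r])
      rw [h.len_r, h1] at h4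
      exact h4 hE
    · omega
  · intro hB N
    left
    refine ⟨h0, fun C hC hE => ?_⟩
    rw [h.len_r, h1] at hE
    rw [h.len_r] at hC
    exact hB N (h.ev_congr hC (fun i _ => rfl) hE)

theorem Axioms.body_odd (idx : T.AR → ℕ)
    (I : ℕ → Set T.AR) (s : T.AR) (A : T.R) (D : Set ((ℕ → ℕ) × ((ℕ → Bool) × (ℕ → ℕ))))
    (τ : ℕ → T.AR) (n : ℕ) (x : ℕ → Bool) (B : T.R) :
    B ∈ T.body (T.XX lefin idx I s A D τ (2 * n + 1) x) ↔
      T.BadSeg I s A (τ n) ∧ T.r B (T.len (τ n)) = τ n := by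
  have h0 : (2 * n + 1) % 2 = 1 := by omega
  have h1 : (2 * n + 1) / 2 = n := by omega
  constructor
  · intro hB
    have h2 := hB (T.len (τ n))
    rcases h2 with ⟨h3, _⟩ | ⟨_, h4, h5⟩
    · omega
    · rw [h1] at h4 h5
      refine ⟨h4, ?_⟩
      rcases h5 with h5 | h5
      · obtain ⟨C, hC⟩ := h.exists_r_eq (τ n)
        have h6 := h5
        rw [← hC, h.initial_iff, h.len_r, hC] at h6
        rw [← h6.2]
        exact hC
      · rw [h.initial_iff] at h5
        exact h5.2
  · rintro ⟨h2, h3⟩ N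
    right
    refine ⟨h0, ?_⟩
    rw [h1]
    refine ⟨h2, ?_⟩
    rw [← h3]
    rcases le_total N (T.len (τ n)) with h4 | h4
    · exact Or.inl (h.initial_r B h4)
    · exact Or.inr (h.initial_r B h4)

/-- **Hardness**: below a good pair, every `Σ¹₂` set reduces to the set of codes. -/
theorem Axioms.hard {s : T.AR} {A : T.R} (hg : T.Good s A) (e : ℕ × T.AR ≃ ℕ)
    {P : Set (ℕ → Bool)} (hP : IsSigma12 P) :
    ∃ f : (ℕ → Bool) → (ℕ → Bool), Continuous f ∧ f ⁻¹' (T.codes e) = P := by
  classical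
  haveI := h.countable
  haveI : Nonempty T.AR := ⟨s⟩
  obtain ⟨Q, hQ, rfl⟩ := hP
  obtain ⟨D, hD, hDQ⟩ := exists_closed hQ
  obtain ⟨I, hIfin, hIdisj, hI⟩ := h.talagrand hg.ne hg.inf
  obtain ⟨idx, hidx⟩ := Countable.exists_injective_nat T.AR
  obtain ⟨τ, hτ⟩ := exists_surjective_nat T.AR
  let X : ℕ → (ℕ → Bool) → Set T.AR := fun n x => T.XX lefin idx I s A D τ n x
  let Θ : (ℕ → Bool) → (ℕ → Bool) := fun x c => toB ((e.symm c).2 ∈ X (e.symm c).1 x)
  have hseq : ∀ x n, T.seqOf e (Θ x) n = X n x := by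
    intro x n
    ext a
    change toB ((e.symm (e (n, a))).2 ∈ X (e.symm (e (n, a))).1 x) = true ↔ _
    rw [Equiv.symm_apply_apply, toB_true]
  have hG : ∀ x B, B ∈ T.G e (Θ x) ↔
      (∀ b, T.BadSeg I s A b → T.r B (T.len b) ≠ b) ∧
        ∀ n, ∃ N, T.Ev lefin idx I s A D n x B N := by
    intro x B
    constructor
    · rintro ⟨_, h2⟩
      constructor
      · intro b hb hBb
        obtain ⟨n, rfl⟩ := hτ b
        apply h2 (2 * n + 1)
        rw [hseq]
        exact (h.body_odd idx I s A D τ n x B).2 ⟨hb, hBb⟩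
      · intro n
        have h3 := h2 (2 * n)
        rw [hseq] at h3
        by_contra hcon
        push Not at hcon
        exact h3 ((h.body_even idx I s A D τ n x B).2 hcon)
    · rintro ⟨h1, h2⟩
      refine ⟨fun n => ?_, fun n hn => ?_⟩
      · rw [hseq]
        exact h.xx_tree idx I s A D τ n x
      · rw [hseq] at hn
        rcases Nat.even_or_odd' n with ⟨m, rfl | rfl⟩
        · obtain ⟨N, hN⟩ := h2 m
          exact (h.body_even idx I s A D τ m x B).1 hn N hN
        · obtain ⟨h3, h4⟩ := (h.body_odd idx I s A D τ m x B).1 hn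
          exact h1 _ h3 h4
  refine ⟨Θ, ?_, ?_⟩
  · -- continuity
    apply continuous_pi
    intro c
    apply continuous_of_dep (T.len (e.symm c).2)
    have hone : ∀ x x' : ℕ → Bool, (∀ i < T.len (e.symm c).2, x i = x' i) →
        (e.symm c).2 ∈ X (e.symm c).1 x → (e.symm c).2 ∈ X (e.symm c).1 x' := by
      intro x x' hx hmem
      rcases hmem with ⟨h1, h2⟩ | h1
      · left
        refine ⟨h1, fun B hB hE => h2 B hB ?_⟩
        exact h.ev_congr rfl (fun i hi => (hx i hi).symm) hE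
      · exact Or.inr h1
    intro x x' hx
    have h1 : (e.symm c).2 ∈ X (e.symm c).1 x ↔ (e.symm c).2 ∈ X (e.symm c).1 x' :=
      ⟨hone x x' hx, hone x' x fun i hi => (hx i hi).symm⟩
    change toB _ = toB _
    rw [propext h1]
  · ext x
    constructor
    · -- a positive set gives a witness
      intro hx
      have hx' : Θ x ∈ T.codes e := hx
      rw [h.codes_iff] at hx'
      obtain ⟨s', A', hne, hsub⟩ := hx'
      by_contra hxP
      have hall : ∀ w, ∃ y, (y, (x, w)) ∈ D := by
        intro w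
        rw [← hDQ]
        intro hmem
        exact hxP ⟨(x, w), hmem, rfl⟩
      obtain ⟨C₀, hC₀⟩ := hne
      have hC₀P : C₀ ∈ T.P0 I s A := by
        apply h.p0_closed hIfin hIdisj hg.inf
        intro n
        by_contra hcon
        push Not at hcon
        refine ((hG x C₀).1 (hsub hC₀)).1 (T.r C₀ n) ?_ (by rw [h.len_r])
        intro B hB hBP
        rw [h.len_r] at hB
        exact hcon B hBP hB
      obtain ⟨hC₀b, w, hw⟩ := hC₀P
      obtain ⟨y, hy⟩ := hall w
      obtain ⟨B, hB, hfus⟩ := h.fusion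
        (fun t B => T.TI A t → ∀ u ∈ T.Succ t B, ∀ i ≤ T.len t, y i ≤ idx u)
        (fun t B B' h1 h2 h3 u hu => h1 h3 u (h.succ_mono' h2 hu))
        s' C₀ ⟨C₀, h.self_mem hC₀⟩ (by
          intro t B _ hBC hne'
          by_cases ht : T.TI A t
          · have hBA : T.le B A := h.le_trans _ _ _ hBC hC₀b.2
            have hfin : {u : T.AR | idx u < (Finset.range (T.len t + 1)).sup y}.Finite :=
              (Set.finite_Iio ((Finset.range (T.len t + 1)).sup y)).preimage (f := idx) hidx.injOn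
            obtain ⟨C, hC, hC2⟩ := h.avoid_finite hne'
              (fun C hC => ht C (h.basic_mono hBA hC)) _ hfin
            refine ⟨C, hC, fun _ u hu i hi => ?_⟩
            by_contra hlt
            have h5 : y i ≤ (Finset.range (T.len t + 1)).sup y :=
              Finset.le_sup (f := y) (Finset.mem_range.2 (Nat.lt_succ_of_le hi))
            have : u ∈ T.Succ t C ∩ {u : T.AR | idx u < (Finset.range (T.len t + 1)).sup y} :=
              ⟨hu, lt_of_lt_of_le (not_le.1 hlt) h5⟩
            rw [hC2] at this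
            exact this
          · obtain ⟨C, hC⟩ := hne'
            exact ⟨C, hC, fun h' => absurd h' ht⟩)
      have hBA' : B ∈ T.basic s' A' := h.basic_mono hC₀.2 hB
      obtain ⟨N, m, j, v, w', k, h1, h2, h3, h4, h5, ⟨l, hl, hl'⟩, h7, h8⟩ :=
        ((hG x B).1 (hsub hBA')).2 (T.len s')
      have hvB : v ∈ T.Succ s B := h.mem_succ.2 ⟨h4, h5, l, hl'⟩
      obtain ⟨k', hk'⟩ := hw v (h.succ_mono hB.2 hvB)
      obtain ⟨-, hww⟩ := code_inj (hIdisj _ _ v h3 hk')
      apply h8
      refine ⟨y, x, w, hy, fun i hi => ⟨?_, rfl, (hww i (by omega)).symm⟩⟩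
      obtain ⟨h9, h10, h11⟩ := h1 i hi
      have hB' := h.mem_basic.1 hB
      have hini : T.Initial s' (T.r B (j i)) := by
        rw [h.initial_iff]
        exact ⟨h9, hB'.1⟩
      refine hfus (T.r B (j i)) hini ⟨B, ⟨_, rfl⟩, h.le_refl _⟩ h11 (T.r B (j i + 1)) ?_ i ?_
      · refine ⟨B, ⟨⟨_, rfl⟩, h.le_refl _⟩, ?_⟩
        rw [h.len_r]
      · rw [h.len_r]
        exact le_of_incr h2 i hi
    · -- a witness gives a positive set
      rintro ⟨⟨x', w⟩, hxw, rfl⟩
      change Θ x' ∈ T.codes e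
      rw [h.codes_iff]
      have hno : ∀ y, (y, (x', w)) ∉ D := by
        intro y hy
        exact ((hDQ (x', w)).2 ⟨y, hy⟩) hxw
      have hKinf : (Set.range (code w)).Infinite := by
        apply Set.infinite_range_of_injective
        intro k k' hk
        exact (code_inj hk).1
      obtain ⟨B, hB, hBI⟩ := hI _ hKinf
      refine ⟨s, B, ⟨B, h.self_mem hB⟩, fun C hC => ?_⟩
      have hCA : C ∈ T.basic s A := h.basic_mono hB.2 hC
      have hCcoh : T.Coh I s w C := by
        intro u hu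
        have h1 := hBI (h.succ_mono hC.2 hu)
        rw [Set.mem_iUnion₂] at h1
        obtain ⟨c, ⟨k, rfl⟩, hk⟩ := h1
        exact ⟨k, hk⟩
      rw [hG]
      constructor
      · intro b hb hCb
        exact hb C hCb ⟨hCA, w, hCcoh⟩
      · intro n
        have hlev := fun n => h.levels hg.noatom hg.types hCA n
        choose J hJ1 hJ2 hJ3 using hlev
        let j : ℕ → ℕ := fun i => Nat.rec (J n) (fun _ a => J (a + 1)) i
        have hj0 : j 0 = J n := rfl
        have hjs : ∀ i, j (i + 1) = J (j i + 1) := fun i => rfl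
        have hjlt : ∀ i, j i < j (i + 1) := by
          intro i
          have := hJ1 (j i + 1)
          rw [hjs]
          omega
        have hjmono : StrictMono j := strictMono_nat_of_lt_succ hjlt
        have hjn : ∀ i, n ≤ j i := by
          intro i
          have h1 := hjmono.monotone (Nat.zero_le i)
          have h2 := hJ1 n
          rw [hj0] at h1
          omega
        have hjTI : ∀ i, T.TI A (T.r C (j i)) := by
          intro i
          cases i with
          | zero => rw [hj0]; exact hJ3 n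
          | succ i => rw [hjs]; exact hJ3 _
        obtain ⟨m, hm⟩ := koenig hD x' w hno (fun i => idx (T.r C (j i + 1)))
        obtain ⟨v, hv, k, hk, hvk⟩ := h.unbounded hIfin hg.inf hCA hCcoh m
        obtain ⟨hv1, hv2, l, hl⟩ := h.mem_succ.1 hv
        refine ⟨max l (j m), m, j, v, w, k, ?_, ?_, hvk, hv1, hv2, ⟨l, le_max_left _ _, hl⟩, hk, hm⟩
        · intro i hi
          exact ⟨hjn i, lt_of_lt_of_le (hjmono hi) (le_max_right _ _), hjTI i⟩
        · intro i _ i' hi'
          exact hjmono hi'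

end Triple

end Pool.Agent.Lib.MP_b89b7d_lc
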