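import Pool.Agent.Lib.MP_b89b7d_lc.Talagrand

set_option autoImplicit false
set_option linter.unusedSectionVars false
set_option linter.style.haveILetI false

namespace Pool.Agent.Lib.MP_b89b7d_lc

open Set TopologicalSpace Filter Topology

/-- Codes of finite sequences of naturals: `code w k` codes `w ↾ k`. -/
def code (w : ℕ → ℕ) : ℕ → ℕ
  | 0 => 0
  | k + 1 => Nat.pair (code w k) (w k) + 1

theorem code_inj {w w' : ℕ → ℕ} : ∀ {k k' : ℕ}, code w k = code w' k' →
    k = k' ∧ ∀ i < k, w i = w' i := by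
  intro k
  induction k with
  | zero =>
    intro k' hk
    cases k' with
    | zero => exact ⟨rfl, fun i hi => absurd hi (Nat.not_lt_zero i)⟩
    | succ k' => simp [code] at hk
  | succ k ih =>
    intro k' hk
    cases k' with
    | zero => simp [code] at hk
    | succ k' =>
      simp only [code, Nat.add_right_cancel_iff] at hk
      rw [Nat.pair_eq_pair] at hk
      obtain ⟨h1, h2⟩ := hk
      obtain ⟨rfl, h3⟩ := ih h1
      refine ⟨rfl, fun i hi => ?_⟩
      rcases Nat.lt_succ_iff_lt_or_eq.1 hi with h4 | rfl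
      · exact h3 i h4
      · exact h2

/-- Some point of `D` agrees with `x, w` on `m` coordinates and is bounded by `β` there. -/
def Bad (D : Set ((ℕ → ℕ) × ((ℕ → Bool) × (ℕ → ℕ)))) (m : ℕ) (β : ℕ → ℕ) (x : ℕ → Bool)
    (w : ℕ → ℕ) : Prop :=
  ∃ y x' w', (y, x', w') ∈ D ∧ ∀ i < m, y i ≤ β i ∧ x' i = x i ∧ w' i = w i

theorem koenig {D : Set ((ℕ → ℕ) × ((ℕ → Bool) × (ℕ → ℕ)))} (hD : IsClosed D) (x : ℕ → Bool)
    (w : ℕ → ℕ) (hxw : ∀ y, (y, x, w) ∉ D) (β : ℕ → ℕ) : ∃ m, ¬ Bad D m β x w := by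
  by_contra hcon
  push Not at hcon
  choose y x' w' hmem hag using hcon
  have hK : IsCompact (Set.pi univ fun i => Set.Iic (β i)) :=
    isCompact_univ_pi fun i => (Set.finite_Iic (β i)).isCompact
  obtain ⟨z, hz, φ, hφ, hlim⟩ := hK.tendsto_subseq (x := fun m i => min (y m i) (β i))
    (fun m i _ => Set.mem_Iic.2 (min_le_right (y m i) (β i)))
  rw [tendsto_pi_nhds] at hlim
  have hev : ∀ i, ∀ᶠ m in atTop, i < φ m := fun i =>
    (hφ.tendsto_atTop).eventually (eventually_gt_atTop i)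
  have h1 : Tendsto (fun m => y (φ m)) atTop (𝓝 z) := by
    rw [tendsto_pi_nhds]
    intro i
    refine (hlim i).congr' ?_
    filter_upwards [hev i] with m hm
    exact min_eq_left (hag (φ m) i hm).1
  have h2 : Tendsto (fun m => x' (φ m)) atTop (𝓝 x) := by
    rw [tendsto_pi_nhds]
    intro i
    refine (tendsto_const_nhds (x := x i)).congr' ?_
    filter_upwards [hev i] with m hm
    exact (hag (φ m) i hm).2.1.symm
  have h3 : Tendsto (fun m => w' (φ m)) atTop (𝓝 w) := by
    rw [tendsto_pi_nhds]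
    intro i
    refine (tendsto_const_nhds (x := w i)).congr' ?_
    filter_upwards [hev i] with m hm
    exact (hag (φ m) i hm).2.2.symm
  have h4 : Tendsto (fun m => ((y (φ m), x' (φ m), w' (φ m)) :
      (ℕ → ℕ) × ((ℕ → Bool) × (ℕ → ℕ)))) atTop (𝓝 (z, x, w)) :=
    h1.prodMk_nhds (h2.prodMk_nhds h3)
  exact hxw z (hD.mem_of_tendsto h4 (Filter.Eventually.of_forall fun m => hmem (φ m)))

end Pool.Agent.Lib.MP_b89b7d_lc
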