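import Pool.Agent.Lib.MP_b89b7d_lc.Basics

set_option autoImplicit false
set_option linter.unusedSectionVars false

namespace Pool.Agent.Lib.MP_b89b7d_lc

open Set

namespace Triple

variable {T : Triple} {lefin : T.AR → T.AR → Prop}

/-- The open set `{B : r_n(B) ∈ W for some n}`. -/
def opn (T : Triple) (W : Set T.AR) : Set T.R := {B | ∃ n, T.r B n ∈ W}

variable (h : T.Axioms lefin)

include h

theorem Axioms.succ_basic {a : T.AR} {C D : T.R} (hD : D ∈ T.basic a C) :
    ∃ t ∈ T.Succ a C, D ∈ T.basic t C :=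
  ⟨_, ⟨D, hD, rfl⟩, ⟨_, rfl⟩, hD.2⟩

theorem Axioms.open_ramsey (W : Set T.AR) {s : T.AR} {A : T.R} (hA : (T.basic s A).Nonempty) :
    ∃ B ∈ T.basic s A, T.basic s B ⊆ T.opn W ∨ T.basic s B ∩ T.opn W = ∅ := by
  by_cases hs : ∃ C ∈ T.basic s A, T.basic s C ⊆ T.opn W
  · obtain ⟨C, hC, h1⟩ := hs
    exact ⟨C, hC, Or.inl h1⟩
  · push Not at hs
    obtain ⟨B, hB, hP⟩ := h.accept (fun a C => T.basic a C ⊆ T.opn W)
      (fun a B B' h1 h2 => h2.trans h1)
      (by
        intro a C hne hst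
        obtain ⟨D, hD⟩ := hne
        refine ⟨D, hD, fun E hE => ?_⟩
        have hE' := h.basic_mono hD.2 hE
        obtain ⟨t, ht, hEt⟩ := h.succ_basic hE'
        exact hst t ht hEt) s A hA hs
    refine ⟨B, hB, Or.inr ?_⟩
    ext C
    simp only [mem_inter_iff, mem_empty_iff_false, iff_false, not_and]
    rintro hC ⟨n, hn⟩
    have hC' := h.mem_basic.1 hC
    have hsub : T.basic (T.r C (max n (T.len s))) C ⊆ T.opn W := by
      intro D hD
      rw [h.mem_basic_r] at hD
      refine ⟨n, ?_⟩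
      rw [h.r_eq_of_le hD.1 (le_max_left _ _)]
      exact hn
    refine hP (T.r C (max n (T.len s))) ?_ C ⟨⟨_, rfl⟩, hC'.2⟩ hsub
    rw [h.initial_iff]
    exact ⟨le_max_right _ _, hC'.1⟩

theorem Axioms.gdelta_pos (W : ℕ → Set T.AR) (hpos : ¬ T.Null (⋂ n, T.opn (W n))) :
    ∃ s A, (T.basic s A).Nonempty ∧ T.basic s A ⊆ ⋂ n, T.opn (W n) := by
  set G := ⋂ n, T.opn (W n) with hG
  unfold Null at hpos
  push Not at hpos
  obtain ⟨s, A, hA, hs⟩ := hpos
  obtain ⟨B, hB, hP⟩ := h.accept (fun a C => T.basic a C ∩ G = ∅)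
    (fun a B B' h1 h2 => by
      rw [← Set.subset_empty_iff] at h1 ⊢
      exact (Set.inter_subset_inter_left _ h2).trans h1)
    (by
      intro a C hne hst
      obtain ⟨D, hD⟩ := hne
      refine ⟨D, hD, ?_⟩
      ext E
      simp only [mem_inter_iff, mem_empty_iff_false, iff_false, not_and]
      intro hE hEG
      have hE' := h.basic_mono hD.2 hE
      obtain ⟨t, ht, hEt⟩ := h.succ_basic hE'
      have : E ∈ T.basic t C ∩ G := ⟨hEt, hEG⟩
      rw [hst t ht] at this
      exact this) s A hA (fun C hC h0 => by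
        have := hs C hC
        rw [h0] at this
        simp at this)
  -- decide the first `|a|` open sets
  obtain ⟨C, hC, hQ⟩ := h.fusion (fun a C => ∀ n ≤ T.len a, T.basic a C ⊆ T.opn (W n))
    (fun a B B' h1 h2 n hn => h2.trans (h1 n hn)) s B ⟨B, h.self_mem hB⟩ (by
      intro a C hsa hCB hne
      have key : ∀ N, ∃ D ∈ T.basic a C, ∀ n < N, T.basic a D ⊆ T.opn (W n) := by
        intro N
        induction N with
        | zero =>
          obtain ⟨D, hD⟩ := hne
          exact ⟨D, hD, fun n hn => absurd hn (Nat.not_lt_zero n)⟩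
        | succ N ih =>
          obtain ⟨D, hD, hDn⟩ := ih
          obtain ⟨E, hE, h1 | h1⟩ := h.open_ramsey (W N) (⟨D, h.self_mem hD⟩ : (T.basic a D).Nonempty)
          · refine ⟨E, h.basic_mono hD.2 hE, fun n hn => ?_⟩
            rcases Nat.lt_succ_iff_lt_or_eq.1 hn with h2 | rfl
            · exact (h.basic_mono hE.2).trans (hDn n h2)
            · exact h1
          · exfalso
            have hEB : T.le E B := h.le_trans _ _ _ hE.2 (h.le_trans _ _ _ hD.2 hCB)
            refine hP a hsa E ⟨hE.1, hEB⟩ ?_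
            rw [← Set.subset_empty_iff, ← h1]
            exact Set.inter_subset_inter_right _ (Set.iInter_subset _ N)
      obtain ⟨D, hD, hDn⟩ := key (T.len a + 1)
      exact ⟨D, hD, fun n hn => hDn n (Nat.lt_succ_of_le hn)⟩)
  refine ⟨s, C, ⟨C, h.self_mem hC⟩, fun D hD => ?_⟩
  rw [Set.mem_iInter]
  intro n
  have hD' := h.mem_basic.1 hD
  refine hQ (T.r D (max n (T.len s))) ?_ ⟨D, ⟨_, rfl⟩, hD'.2⟩ n ?_ ⟨⟨_, rfl⟩, hD'.2⟩
  · rw [h.initial_iff]
    exact ⟨le_max_right _ _, hD'.1⟩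
  · rw [h.len_r]
    exact le_max_left _ _

theorem Axioms.pos_of_subset {𝒳 : Set T.R} {s : T.AR} {A : T.R} (hA : (T.basic s A).Nonempty)
    (hs : T.basic s A ⊆ 𝒳) : ¬ T.Null 𝒳 := by
  intro hN
  obtain ⟨B, hB, h0⟩ := hN s A hA
  have : B ∈ T.basic s B ∩ 𝒳 := ⟨h.self_mem hB, hs hB⟩
  rw [h0] at this
  exact this

omit h in
theorem G_eq_iInter {e : ℕ × T.AR ≃ ℕ} {x : ℕ → Bool} (hx : ∀ n, T.IsTree (T.seqOf e x n)) :
    T.G e x = ⋂ n, T.opn (T.seqOf e x n)ᶜ := by
  ext A
  simp only [G, opn, body, mem_ofPred_eq, mem_iInter, mem_compl_iff]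
  constructor
  · rintro ⟨_, h2⟩ n
    have := h2 n
    push Not at this
    exact this
  · intro h1
    refine ⟨hx, fun n => ?_⟩
    push Not
    exact h1 n

theorem Axioms.codes_iff {e : ℕ × T.AR ≃ ℕ} {x : ℕ → Bool} :
    x ∈ T.codes e ↔ ∃ s A, (T.basic s A).Nonempty ∧ T.basic s A ⊆ T.G e x := by
  constructor
  · intro hx
    have hx' : ¬ T.Null (T.G e x) := hx
    by_cases hT : ∀ n, T.IsTree (T.seqOf e x n)
    · rw [G_eq_iInter hT] at hx' ⊢
      exact h.gdelta_pos _ hx'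
    · exfalso
      apply hx'
      have : T.G e x = ∅ := by
        ext A
        simp only [G, mem_ofPred_eq, mem_empty_iff_false, iff_false, not_and]
        intro h1
        exact absurd h1 hT
      rw [this]
      intro s A hA
      obtain ⟨B, hB⟩ := hA
      exact ⟨B, hB, by simp⟩
  · rintro ⟨s, A, hA, hs⟩
    exact h.pos_of_subset hA hs

end Triple

end Pool.Agent.Lib.MP_b89b7d_lc
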