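import Pool.Agent.Lib.MP_b89b7d_lc.Koenig

set_option autoImplicit false
set_option linter.unusedSectionVars false
set_option linter.style.haveILetI false

namespace Pool.Agent.Lib.MP_b89b7d_lc

open Set TopologicalSpace Filter Topology

namespace Triple

variable {T : Triple} {lefin : T.AR → T.AR → Prop}

/-- Coherence with `w`. -/
def Coh (T : Triple) (I : ℕ → Set T.AR) (s : T.AR) (w : ℕ → ℕ) (B : T.R) : Prop :=
  ∀ u ∈ T.Succ s B, ∃ k, u ∈ I (code w k)

/-- The closed set of coherent points. -/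
def P0 (T : Triple) (I : ℕ → Set T.AR) (s : T.AR) (A : T.R) : Set T.R :=
  {B | B ∈ T.basic s A ∧ ∃ w, T.Coh I s w B}

/-- Nodes that split below `A`. -/
def TI (T : Triple) (A : T.R) (t : T.AR) : Prop := ∀ C ∈ T.basic t A, (T.Succ t C).Infinite

/-- No coherent point passes through `b`. -/
def BadSeg (T : Triple) (I : ℕ → Set T.AR) (s : T.AR) (A : T.R) (b : T.AR) : Prop :=
  ∀ B, T.r B (T.len b) = b → B ∉ T.P0 I s A

/-- Evidence, visible in `r_N(B)`, that `B` satisfies the `n`-th open condition. -/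
def Ev (T : Triple) (lefin : T.AR → T.AR → Prop) (idx : T.AR → ℕ) (I : ℕ → Set T.AR) (s : T.AR)
    (A : T.R) (D : Set ((ℕ → ℕ) × ((ℕ → Bool) × (ℕ → ℕ)))) (n : ℕ) (x : ℕ → Bool) (B : T.R)
    (N : ℕ) : Prop :=
  ∃ (m : ℕ) (j : ℕ → ℕ) (v : T.AR) (w : ℕ → ℕ) (k : ℕ),
    (∀ i < m, n ≤ j i ∧ j i < N ∧ T.TI A (T.r B (j i))) ∧
    (∀ i < m, ∀ i' < i, j i' < j i) ∧
    v ∈ I (code w k) ∧ T.Initial s v ∧ T.len v = T.len s + 1 ∧ (∃ l ≤ N, lefin v (T.r B l)) ∧
    m ≤ k ∧ ¬ Bad D m (fun i => idx (T.r B (j i + 1))) x w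

/-- `j i ≥ i` for increasing `j`. -/
theorem le_of_incr {m : ℕ} {j : ℕ → ℕ} (hj : ∀ i < m, ∀ i' < i, j i' < j i) :
    ∀ i < m, i ≤ j i := by
  intro i
  induction i with
  | zero => intro _; exact Nat.zero_le _
  | succ i ih =>
    intro hi
    have h1 := ih (by omega)
    have h2 := hj (i + 1) hi i (Nat.lt_succ_self i)
    omega

variable (h : T.Axioms lefin)

include h

theorem Axioms.ev_congr {idx : T.AR → ℕ} {I : ℕ → Set T.AR} {s : T.AR} {A : T.R}
    {D : Set ((ℕ → ℕ) × ((ℕ → Bool) × (ℕ → ℕ)))} {n : ℕ} {x x' : ℕ → Bool} {B B' : T.R} {N : ℕ}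
    (hB : T.r B N = T.r B' N) (hx : ∀ i < N, x i = x' i)
    (hE : T.Ev lefin idx I s A D n x B N) : T.Ev lefin idx I s A D n x' B' N := by
  obtain ⟨m, j, v, w, k, h1, h2, h3, h4, h5, ⟨l, hl, hl'⟩, h7, h8⟩ := hE
  have hmN : ∀ i < m, i < N := by
    intro i hi
    have := le_of_incr h2 i hi
    have := (h1 i hi).2.1
    omega
  refine ⟨m, j, v, w, k, ?_, h2, h3, h4, h5, ⟨l, hl, ?_⟩, h7, ?_⟩
  · intro i hi
    obtain ⟨h9, h10, h11⟩ := h1 i hi
    refine ⟨h9, h10, ?_⟩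
    rw [← h.r_eq_of_le hB h10.le]
    exact h11
  · rw [← h.r_eq_of_le hB hl]
    exact hl'
  · rintro ⟨y, x'', w', hD, hag⟩
    apply h8
    refine ⟨y, x'', w', hD, fun i hi => ?_⟩
    obtain ⟨h9, h10, h11⟩ := hag i hi
    refine ⟨?_, ?_, h11⟩
    · have h12 : T.r B (j i + 1) = T.r B' (j i + 1) := h.r_eq_of_le hB (h1 i hi).2.1
      change y i ≤ idx (T.r B (j i + 1))
      rw [h12]
      exact h9
    · rw [h10, hx i (hmN i hi)]

theorem Axioms.ev_mono {idx : T.AR → ℕ} {I : ℕ → Set T.AR} {s : T.AR} {A : T.R}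
    {D : Set ((ℕ → ℕ) × ((ℕ → Bool) × (ℕ → ℕ)))} {n : ℕ} {x : ℕ → Bool} {B : T.R} {N N' : ℕ}
    (hN : N ≤ N')
    (hE : T.Ev lefin idx I s A D n x B N) : T.Ev lefin idx I s A D n x B N' := by
  obtain ⟨m, j, v, w, k, h1, h2, h3, h4, h5, ⟨l, hl, hl'⟩, h7, h8⟩ := hE
  exact ⟨m, j, v, w, k, fun i hi => ⟨(h1 i hi).1, lt_of_lt_of_le (h1 i hi).2.1 hN, (h1 i hi).2.2⟩,
    h2, h3, h4, h5, ⟨l, hl.trans hN, hl'⟩, h7, h8⟩

/-- Labels are unbounded on a coherent point. -/
theorem Axioms.unbounded {I : ℕ → Set T.AR} (hIfin : ∀ k, (I k).Finite) {s : T.AR} {A : T.R}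
    (hinf : ∀ C ∈ T.basic s A, (T.Succ s C).Infinite) {w : ℕ → ℕ} {B : T.R}
    (hB : B ∈ T.basic s A) (hw : T.Coh I s w B) (m : ℕ) :
    ∃ u ∈ T.Succ s B, ∃ k, m ≤ k ∧ u ∈ I (code w k) := by
  by_contra hcon
  push Not at hcon
  apply hinf B hB
  have hfin : (⋃ k ∈ Finset.range m, I (code w k)).Finite :=
    Set.Finite.biUnion (Finset.finite_toSet _) fun k _ => hIfin _
  refine hfin.subset fun u hu => ?_
  obtain ⟨k, hk⟩ := hw u hu
  rw [Set.mem_iUnion₂]
  refine ⟨k, ?_, hk⟩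
  rw [Finset.mem_range]
  by_contra hlt
  exact hcon u hu k (not_lt.1 hlt) hk

/-- `P0` is closed. -/
theorem Axioms.p0_closed {I : ℕ → Set T.AR} (hIfin : ∀ k, (I k).Finite)
    (hIdisj : ∀ j k u, u ∈ I j → u ∈ I k → j = k) {s : T.AR} {A : T.R}
    (hinf : ∀ C ∈ T.basic s A, (T.Succ s C).Infinite) {B : T.R}
    (hB : ∀ n, ∃ B' ∈ T.P0 I s A, T.r B' n = T.r B n) : B ∈ T.P0 I s A := by
  classical
  choose B' hB' hr using hB
  have hBbasic : B ∈ T.basic s A := by
    rw [h.mem_basic]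
    constructor
    · rw [← hr]
      exact (h.mem_basic.1 (hB' _).1).1
    · rw [h.le_iff]
      intro n
      rw [← hr n]
      exact (h.le_iff _ _).1 (hB' n).1.2 n
  refine ⟨hBbasic, ?_⟩
  have hw := fun n => (hB' n).2
  choose w hw using hw
  -- stabilization of labels
  have key : ∀ u : T.AR, ∃ m, u ∈ T.Succ s B → ∀ n, m ≤ n → u ∈ T.Succ s (B' n) := by
    intro u
    by_cases hu : u ∈ T.Succ s B
    · obtain ⟨h1, h2, m, hm⟩ := h.mem_succ.1 hu
      refine ⟨m, fun _ n hn => ?_⟩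
      rw [h.mem_succ]
      refine ⟨h1, h2, m, ?_⟩
      rw [h.r_eq_of_le (hr n) hn]
      exact hm
    · exact ⟨0, fun h' => absurd h' hu⟩
  choose M hM using key
  have hlab : ∀ u : T.AR, ∃ k, u ∈ T.Succ s B → u ∈ I (code (w (M u)) k) := by
    intro u
    by_cases hu : u ∈ T.Succ s B
    · obtain ⟨k, hk⟩ := hw (M u) u (hM u hu (M u) le_rfl)
      exact ⟨k, fun _ => hk⟩
    · exact ⟨0, fun h' => absurd h' hu⟩
  choose K hK using hlab
  have hstab : ∀ u ∈ T.Succ s B, ∀ n, M u ≤ n → ∀ i < K u, w n i = w (M u) i := by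
    intro u hu n hn i hi
    obtain ⟨k, hk⟩ := hw n u (hM u hu n hn)
    have h1 := hIdisj _ _ u (hK u hu) hk
    obtain ⟨h2, h3⟩ := code_inj h1
    exact (h3 i hi).symm
  have hunb : ∀ m, ∃ u ∈ T.Succ s B, m ≤ K u := by
    intro m
    by_contra hcon
    push Not at hcon
    apply hinf B hBbasic
    -- every `u` lies in `I (code (w (M u)) (K u))`, determined by `K u`
    have hex : ∀ k, ∃ c, ∀ u ∈ T.Succ s B, K u = k → u ∈ I c := by
      intro k
      by_cases hk : ∃ u ∈ T.Succ s B, K u = k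
      · obtain ⟨u, hu, huk⟩ := hk
        refine ⟨code (w (M u)) k, fun v hv hvk => ?_⟩
        have h1 := hstab u hu (max (M u) (M v)) (le_max_left _ _)
        have h2 := hstab v hv (max (M u) (M v)) (le_max_right _ _)
        have h3 : ∀ i < k, w (M v) i = w (M u) i := by
          intro i hi
          rw [← h1 i (by omega), ← h2 i (by omega)]
        have h4 : ∀ k' ≤ k, code (w (M v)) k' = code (w (M u)) k' := by
          intro k'
          induction k' with
          | zero => intro _; rfl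
          | succ k' ih =>
            intro hk'
            simp only [code]
            rw [ih (by omega), h3 k' (by omega)]
        rw [← h4 k le_rfl, ← hvk]
        exact hK v hv
      · exact ⟨0, fun u hu huk => absurd ⟨u, hu, huk⟩ hk⟩
    choose c hc using hex
    have hfin : (⋃ k ∈ Finset.range m, I (c k)).Finite :=
      Set.Finite.biUnion (Finset.finite_toSet _) fun k _ => hIfin _
    refine hfin.subset fun u hu => ?_
    rw [Set.mem_iUnion₂]
    exact ⟨K u, Finset.mem_range.2 (hcon u hu), hc _ u hu rfl⟩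
  choose U hU1 hU2 using hunb
  refine ⟨fun i => w (M (U (i + 1))) i, fun u hu => ⟨K u, ?_⟩⟩
  have h3 : ∀ i < K u, w (M u) i = w (M (U (i + 1))) i := by
    intro i hi
    have h1 := hstab u hu (max (M u) (M (U (i + 1)))) (le_max_left _ _) i hi
    have h2 := hstab (U (i + 1)) (hU1 _) (max (M u) (M (U (i + 1)))) (le_max_right _ _) i
      (by have := hU2 (i + 1); omega)
    rw [← h1, ← h2]
  have h4 : ∀ k ≤ K u, code (w (M u)) k = code (fun i => w (M (U (i + 1))) i) k := by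
    intro k
    induction k with
    | zero => intro _; rfl
    | succ k ih =>
      intro hk
      simp only [code]
      rw [ih (by omega), h3 k (by omega)]
  rw [← h4 (K u) le_rfl]
  exact hK u hu

end Triple

end Pool.Agent.Lib.MP_b89b7d_lc
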