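import Pool.Agent.Lib.MP_b89b7d_lc.Category

set_option autoImplicit false
set_option linter.unusedSectionVars false
set_option linter.style.haveILetI false

namespace Pool.Agent.Lib.MP_b89b7d_lc

open Set TopologicalSpace

/-- Truth value of a proposition. -/
noncomputable def toB (p : Prop) : Bool := @decide p (Classical.propDecidable p)

theorem toB_true {p : Prop} : toB p = true ↔ p := by
  unfold toB
  exact @decide_eq_true_iff p (Classical.propDecidable p)

theorem toB_false {p : Prop} : toB p = false ↔ ¬ p := by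
  rw [← Bool.not_eq_true, toB_true]

/-- A dense open set is forced by a finite pattern far out. -/
theorem exists_block {α : Type} (idx : α → ℕ) (hidx : Function.Injective idx)
    (W : Set (α → Bool)) (hWo : IsOpen W) (hWd : Dense W) (N : ℕ) :
    ∃ N', N < N' ∧ ∃ P : α → Bool, ∀ x : α → Bool,
      (∀ u, N ≤ idx u → idx u < N' → x u = P u) → x ∈ W := by
  classical
  have hΩfin : {u : α | idx u < N}.Finite :=
    (Set.finite_Iio N).preimage (f := idx) hidx.injOn
  set Ω : Finset α := hΩfin.toFinset with hΩ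
  have hΩmem : ∀ u, u ∈ Ω ↔ idx u < N := by
    intro u
    rw [hΩ, Set.Finite.mem_toFinset]
    rfl
  let φ : Finset α → (α → Bool) → (α → Bool) := fun c x u => if u ∈ c then !(x u) else x u
  have hφc : ∀ c, Continuous (φ c) := by
    intro c
    apply continuous_pi
    intro u
    by_cases hu : u ∈ c
    · simp only [φ, if_pos hu]
      exact (continuous_of_discreteTopology (f := fun b : Bool => !b)).comp (continuous_apply u)
    · simp only [φ, if_neg hu]
      exact continuous_apply u
  have hφφ : ∀ c x, φ c (φ c x) = x := by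
    intro c x
    funext u
    by_cases hu : u ∈ c
    · simp [φ, hu]
    · simp [φ, hu]
  have hpre : ∀ c, Dense (φ c ⁻¹' W) := by
    intro c
    rw [dense_iff_inter_open]
    intro O hO hne
    have hO' : IsOpen (φ c ⁻¹' O) := hO.preimage (hφc c)
    obtain ⟨x, hx⟩ := hne
    have hne' : (φ c ⁻¹' O).Nonempty := ⟨φ c x, by
      change φ c (φ c x) ∈ O
      rw [hφφ]; exact hx⟩
    obtain ⟨y, hy1, hy2⟩ := dense_iff_inter_open.1 hWd _ hO' hne'
    refine ⟨φ c y, hy1, ?_⟩
    change φ c (φ c y) ∈ W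
    rw [hφφ]; exact hy2
  have hdense : Dense (⋂ c : ↥(Ω.powerset), φ c.1 ⁻¹' W) :=
    dense_iInter_of_isOpen (fun c => hWo.preimage (hφc _)) (fun c => hpre _)
  have hopen : IsOpen (⋂ c : ↥(Ω.powerset), φ c.1 ⁻¹' W) :=
    isOpen_iInter_of_finite fun c => hWo.preimage (hφc _)
  obtain ⟨x₀, hx₀⟩ := hdense.nonempty
  rw [isOpen_pi_iff] at hopen
  obtain ⟨I, v, hv, hsub⟩ := hopen x₀ hx₀
  refine ⟨max (N + 1) (I.sup idx + 1), by omega, x₀, ?_⟩
  intro x hx
  set c : Finset α := Ω.filter fun u => x u ≠ x₀ u with hc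
  have hcΩ : c ∈ Ω.powerset := Finset.mem_powerset.2 (Finset.filter_subset _ _)
  have hagree : ∀ u ∈ I, φ c x u = x₀ u := by
    intro u hu
    have hlt : idx u < I.sup idx + 1 := Nat.lt_succ_of_le (Finset.le_sup hu)
    by_cases h1 : idx u < N
    · by_cases h2 : x u = x₀ u
      · have : u ∉ c := by
          rw [hc, Finset.mem_filter]
          rintro ⟨-, h3⟩
          exact h3 h2
        simp only [φ, if_neg this]
        exact h2
      · have : u ∈ c := by
          rw [hc, Finset.mem_filter]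
          exact ⟨(hΩmem u).2 h1, h2⟩
        simp only [φ, if_pos this]
        cases h3 : x u <;> cases h4 : x₀ u <;> simp_all
    · have : u ∉ c := by
        rw [hc, Finset.mem_filter]
        rintro ⟨h3, -⟩
        exact h1 ((hΩmem u).1 h3)
      simp only [φ, if_neg this]
      exact hx u (by omega) (by omega)
  have hmem : φ c x ∈ ⋂ c : ↥(Ω.powerset), φ c.1 ⁻¹' W := by
    apply hsub
    intro u hu
    rw [hagree u hu]
    exact (hv u hu).2
  have h5 := Set.mem_iInter.1 hmem ⟨c, hcΩ⟩
  change φ c (φ c x) ∈ W at h5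
  rwa [hφφ] at h5

namespace Triple

variable {T : Triple} {lefin : T.AR → T.AR → Prop} (h : T.Axioms lefin)

include h

/-- Talagrand's characterization for the coideal at a splitting node. -/
theorem Axioms.talagrand {s : T.AR} {A : T.R} (hA : (T.basic s A).Nonempty)
    (hinf : ∀ C ∈ T.basic s A, (T.Succ s C).Infinite) :
    ∃ I : ℕ → Set T.AR, (∀ k, (I k).Finite) ∧ (∀ j k u, u ∈ I j → u ∈ I k → j = k) ∧
      ∀ K : Set ℕ, K.Infinite → ∃ B ∈ T.basic s A, T.Succ s B ⊆ ⋃ k ∈ K, I k := by
  classical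
  haveI := h.countable
  haveI : Nonempty T.AR := ⟨s⟩
  obtain ⟨idx, hidx⟩ := Countable.exists_injective_nat T.AR
  obtain ⟨τ, hτ⟩ := exists_surjective_nat T.AR
  have hD := fun t => h.dense_next s A t
  set D : T.AR → Set (T.AR → Bool) := fun t =>
    (closure (T.UU s A t))ᶜ ∪ ⋃ τ' ∈ {τ' | T.Next t τ'}, T.UU s A τ' with hDdef
  -- decreasing open dense sets
  let W : ℕ → Set (T.AR → Bool) := fun n => ⋂ i : Fin (n + 1), D (τ i)
  have hWo : ∀ n, IsOpen (W n) := fun n => isOpen_iInter_of_finite fun i => (hD _).1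
  have hWd : ∀ n, Dense (W n) := fun n =>
    dense_iInter_of_isOpen (fun i => (hD _).1) (fun i => (hD _).2)
  have hWsub : ∀ n i, i ≤ n → W n ⊆ D (τ i) := by
    intro n i hi x hx
    exact Set.mem_iInter.1 hx ⟨i, Nat.lt_succ_of_le hi⟩
  obtain ⟨x₀, hx₀⟩ := h.UU_nonempty hA
  have hUo : IsOpen (T.UU s A s) := isOpen_UU s A s
  rw [isOpen_pi_iff] at hUo
  obtain ⟨J, v, hv, hJ⟩ := hUo x₀ hx₀
  set N₀ := J.sup idx + 1 with hN₀
  have hUs : ∀ x : T.AR → Bool, (∀ u, idx u < N₀ → x u = x₀ u) → x ∈ T.UU s A s := by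
    intro x hx
    apply hJ
    intro u hu
    rw [hx u (Nat.lt_succ_of_le (Finset.le_sup hu))]
    exact (hv u hu).2
  have hblock := fun n N => exists_block idx hidx (W n) (hWo n) (hWd n) N
  choose nN hnN P hP using hblock
  let N : ℕ → ℕ := fun k => Nat.rec N₀ (fun k m => nN k m) k
  have hN0 : N 0 = N₀ := rfl
  have hNs : ∀ k, N (k + 1) = nN k (N k) := fun k => rfl
  have hNlt : ∀ k, N k < N (k + 1) := fun k => by rw [hNs]; exact hnN _ _
  have hNmono : StrictMono N := strictMono_nat_of_lt_succ hNlt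
  let I : ℕ → Set T.AR := fun k => {u | N k ≤ idx u ∧ idx u < N (k + 1) ∧ P k (N k) u = true}
  have hdisj : ∀ j k u, N j ≤ idx u → idx u < N (j + 1) → N k ≤ idx u → idx u < N (k + 1) →
      j = k := by
    intro j k u h1 h2 h3 h4
    have h5 : j < k + 1 := hNmono.lt_iff_lt.1 (lt_of_le_of_lt h1 h4)
    have h6 : k < j + 1 := hNmono.lt_iff_lt.1 (lt_of_le_of_lt h3 h2)
    omega
  refine ⟨I, ?_, ?_, ?_⟩
  · intro k
    have : (idx ⁻¹' (Set.Iio (N (k + 1)))).Finite := (Set.finite_Iio _).preimage hidx.injOn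
    exact this.subset fun u hu => hu.2.1
  · intro j k u hj hk
    exact hdisj j k u hj.1 hj.2.1 hk.1 hk.2.1
  · intro K hK
    let x : T.AR → Bool := fun u =>
      if idx u < N₀ then x₀ u else toB (∃ k : ℕ, k ∈ K ∧ u ∈ I k)
    have hxU : x ∈ T.UU s A s := hUs x fun u hu => by simp only [x, if_pos hu]
    have hxW : ∀ n, x ∈ W n := by
      intro n
      obtain ⟨k, hkK, hkn⟩ := hK.exists_gt n
      have h1 : x ∈ W k := by
        apply hP k (N k) x
        intro u hu1 hu2
        have hu3 : ¬ idx u < N₀ := by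
          have : N 0 ≤ N k := hNmono.monotone (Nat.zero_le k)
          rw [hN0] at this
          omega
        simp only [x, if_neg hu3]
        rw [← hNs] at hu2
        cases hPu : P k (N k) u with
        | true =>
          rw [toB_true]
          exact ⟨k, hkK, hu1, hu2, hPu⟩
        | false =>
          rw [toB_false]
          rintro ⟨j, _, hj1, hj2, hj3⟩
          have := hdisj j k u hj1 hj2 hu1 hu2
          subst this
          rw [hPu] at hj3
          exact absurd hj3 (by simp)
      refine Set.mem_iInter.2 fun i => ?_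
      have hi : (i : ℕ) ≤ k := by have := i.2; omega
      exact hWsub k i hi h1
    obtain ⟨B, hB, hBx⟩ := h.generic_mem x hxU (by
      intro t
      obtain ⟨n, rfl⟩ := hτ t
      exact hWsub n n le_rfl (hxW n))
    have hfin : {u : T.AR | idx u < N₀}.Finite :=
      (Set.finite_Iio N₀).preimage (f := idx) hidx.injOn
    obtain ⟨C, hC, hC2⟩ := h.avoid_finite ⟨B, h.self_mem hB⟩
      (fun C hC => hinf C (h.basic_mono hB.2 hC)) _ hfin
    refine ⟨C, h.basic_mono hB.2 hC, fun u hu => ?_⟩
    have h1 : ¬ idx u < N₀ := by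
      intro h2
      have : u ∈ T.Succ s C ∩ {u | idx u < N₀} := ⟨hu, h2⟩
      rw [hC2] at this
      exact this
    have h2 := hBx u (h.succ_mono hC.2 hu)
    simp only [x, if_neg h1, toB_true] at h2
    obtain ⟨k, hk1, hk2⟩ := h2
    rw [Set.mem_iUnion₂]
    exact ⟨k, hk1, hk2⟩

end Triple

end Pool.Agent.Lib.MP_b89b7d_lc
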