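import Pool.Agent.Lib.MP_b89b7d_lc.Positive

set_option autoImplicit false
set_option linter.unusedSectionVars false
set_option linter.style.haveILetI false

namespace Pool.Agent.Lib.MP_b89b7d_lc

open Set

/-- Countably many infinite sets are split by one set. -/
theorem exists_split {α : Type} [Countable α] (H : ℕ → Set α) (hH : ∀ n, (H n).Infinite) :
    ∃ O : Set α, ∀ n, (H n ∩ O).Nonempty ∧ ¬ H n ⊆ O := by
  classical
  obtain ⟨idx, hidx⟩ := Countable.exists_injective_nat α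
  have hex : ∀ n N, ∃ u ∈ H n, N < idx u := by
    intro n N
    by_contra hcon
    push Not at hcon
    apply hH n
    have hfin : (idx ⁻¹' (Set.Iic N)).Finite :=
      (Set.finite_Iic N).preimage (hidx.injOn)
    exact hfin.subset fun u hu => hcon u hu
  choose g hg1 hg2 using hex
  let f : ℕ → α := fun k => Nat.rec (g 0 0) (fun k u => g ((k + 1) / 2) (idx u)) k
  have hfs : ∀ k, f (k + 1) = g ((k + 1) / 2) (idx (f k)) := fun k => rfl
  have hfmem : ∀ k, f k ∈ H (k / 2) := by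
    intro k
    cases k with
    | zero => exact hg1 0 0
    | succ k => rw [hfs]; exact hg1 _ _
  have hmono : StrictMono fun k => idx (f k) := by
    apply strictMono_nat_of_lt_succ
    intro k
    change idx (f k) < idx (f (k + 1))
    rw [hfs]
    exact hg2 _ _
  refine ⟨Set.range fun n => f (2 * n), fun n => ⟨⟨f (2 * n), ?_, ⟨n, rfl⟩⟩, fun hsub => ?_⟩⟩
  · have := hfmem (2 * n)
    rwa [Nat.mul_div_cancel_left n (by norm_num : 0 < 2)] at this
  · have h1 := hfmem (2 * n + 1)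
    have h2 : (2 * n + 1) / 2 = n := by omega
    rw [h2] at h1
    obtain ⟨m, hm⟩ := hsub h1
    have h3 : idx (f (2 * m)) = idx (f (2 * n + 1)) := congrArg idx hm
    rcases lt_trichotomy (2 * m) (2 * n + 1) with h4 | h4 | h4
    · have h5 : idx (f (2 * m)) < idx (f (2 * n + 1)) := hmono h4
      omega
    · omega
    · have h5 : idx (f (2 * n + 1)) < idx (f (2 * m)) := hmono h4
      omega

namespace Triple

variable {T : Triple} {lefin : T.AR → T.AR → Prop} (h : T.Axioms lefin)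

include h

theorem Axioms.subsingleton_step (a : T.AR) (C : T.R) (hne : (T.basic a C).Nonempty)
    (hst : ∀ t ∈ T.Succ a C, (T.basic t C).Subsingleton) :
    ∃ C' ∈ T.basic a C, (T.basic a C').Subsingleton := by
  classical
  haveI := h.countable
  by_contra hcon
  push Not at hcon
  have hinf : ∀ C' ∈ T.basic a C, (T.Succ a C').Infinite := by
    intro C' hC' hfin
    obtain ⟨D, hD, u, hu⟩ := h.exists_singleton (⟨C', h.self_mem hC'⟩) hfin
    have hDC : T.le D C := h.le_trans _ _ _ hD.2 hC'.2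
    have hDa : D ∈ T.basic a C := h.basic_mono hC'.2 hD
    apply Set.not_subsingleton_iff.2 (hcon D hDa)
    intro E hE E' hE'
    obtain ⟨t, ht, hEt⟩ := h.succ_basic hE
    obtain ⟨t', ht', hEt'⟩ := h.succ_basic hE'
    have h1 : t = u := hu ht
    have h2 : t' = u := hu ht'
    subst h1
    subst h2
    exact hst _ (h.succ_mono hDC ht) (h.basic_mono hDC hEt) (h.basic_mono hDC hEt')
  -- the successor set
  have hex : ∀ t : T.AR, ∃ E : Set T.AR, E.Infinite ∧
      ∀ D ∈ T.basic a C, D ∈ T.basic t C → t ∈ T.Succ a C → T.Succ a D = E := by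
    intro t
    by_cases ht : t ∈ T.Succ a C
    · obtain ⟨D, hD⟩ := h.basic_succ_nonempty ht
      have hDa : D ∈ T.basic a C := h.basic_anti (h.mem_succ.1 ht).1 C hD
      refine ⟨T.Succ a D, hinf D hDa, fun D' _ hD' _ => ?_⟩
      rw [hst t ht hD' hD]
    · obtain ⟨D, hD⟩ := hne
      exact ⟨T.Succ a D, hinf D hD, fun D' _ _ h' => absurd h' ht⟩
  choose E hE1 hE2 using hex
  haveI : Nonempty T.AR := ⟨a⟩
  obtain ⟨τ, hτ⟩ := exists_surjective_nat T.AR
  obtain ⟨O, hO⟩ := exists_split (fun n => E (τ n)) (fun n => hE1 _)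
  obtain ⟨D, hD, h1⟩ := h.pigeon' hne O
  obtain ⟨t, ht, hDt⟩ := h.succ_basic hD
  obtain ⟨n, hn⟩ := hτ t
  have h2 := hO n
  simp only [hn] at h2
  rw [← hE2 t D hD hDt ht] at h2
  rcases h1 with h1 | h1
  · exact h2.2 h1
  · obtain ⟨v, hv1, hv2⟩ := h2.1
    have : v ∈ T.Succ a D ∩ O := ⟨hv1, hv2⟩
    rw [h1] at this
    exact this

omit h in
/-- `(s, A)` with no atoms below it and with the splitting type of every node decided. -/
structure Good (T : Triple) (s : T.AR) (A : T.R) : Prop where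
  ne : (T.basic s A).Nonempty
  inf : ∀ C ∈ T.basic s A, (T.Succ s C).Infinite
  noatom : ∀ a, T.Initial s a → ∀ C ∈ T.basic a A, ¬ (T.basic a C).Subsingleton
  types : ∀ a, T.Initial s a → (T.basic a A).Nonempty →
    (∃ u, T.Succ a A ⊆ {u}) ∨ ∀ C ∈ T.basic a A, (T.Succ a C).Infinite

theorem Axioms.levels {s : T.AR} {A : T.R}
    (noatom : ∀ a, T.Initial s a → ∀ C ∈ T.basic a A, ¬ (T.basic a C).Subsingleton)
    (types : ∀ a, T.Initial s a → (T.basic a A).Nonempty →
      (∃ u, T.Succ a A ⊆ {u}) ∨ ∀ C ∈ T.basic a A, (T.Succ a C).Infinite)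
    {F : T.R} (hF : F ∈ T.basic s A) (n : ℕ) :
    ∃ j, n ≤ j ∧ T.len s ≤ j ∧ ∀ C ∈ T.basic (T.r F j) A, (T.Succ (T.r F j) C).Infinite := by
  by_contra hcon
  push Not at hcon
  have hF' := h.mem_basic.1 hF
  set N := max n (T.len s) with hN
  have hty : ∀ j, N ≤ j → ∃ u, T.Succ (T.r F j) A ⊆ {u} := by
    intro j hj
    have h1 : T.Initial s (T.r F j) := by
      rw [h.initial_iff]
      exact ⟨(le_max_right _ _).trans hj, hF'.1⟩
    rcases types _ h1 ⟨F, ⟨_, rfl⟩, hF'.2⟩ with h2 | h2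
    · exact h2
    · obtain ⟨C, hC, hC2⟩ := hcon j ((le_max_left _ _).trans hj) ((le_max_right _ _).trans hj)
      exact absurd (h2 C hC) (by simpa using hC2)
  have hall : ∀ C ∈ T.basic (T.r F N) F, C = F := by
    intro C hC
    have hCr := h.mem_basic_r.1 hC
    have hCA : T.le C A := h.le_trans _ _ _ hCr.2 hF'.2
    have key : ∀ j, N ≤ j → T.r C j = T.r F j := by
      intro j hj
      induction j, hj using Nat.le_induction with
      | base => exact hCr.1
      | succ j hj ih =>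
        obtain ⟨u, hu⟩ := hty j hj
        have h1 : T.r C (j + 1) ∈ T.Succ (T.r F j) A := by
          refine ⟨C, ⟨⟨j, ih⟩, hCA⟩, ?_⟩
          rw [h.len_r]
        have h2 : T.r F (j + 1) ∈ T.Succ (T.r F j) A := by
          refine ⟨F, ⟨⟨j, rfl⟩, hF'.2⟩, ?_⟩
          rw [h.len_r]
        rw [hu h1, hu h2]
    apply h.ext
    intro k
    have h1 := key (max N k) (le_max_left _ _)
    exact h.r_eq_of_le h1 (le_max_right _ _)
  have hsN : T.Initial s (T.r F N) := by
    rw [h.initial_iff]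
    exact ⟨le_max_right _ _, hF'.1⟩
  refine noatom (T.r F N) hsN F ⟨⟨_, rfl⟩, hF'.2⟩ ?_
  intro C hC D hD
  rw [hall C hC, hall D hD]

theorem Axioms.exists_good {s : T.AR} {A : T.R} (hA : (T.basic s A).Nonempty)
    (hs : ∀ C ∈ T.basic s A, ¬ (T.basic s C).Subsingleton) :
    ∃ s' A', T.Good s' A' := by
  obtain ⟨B₁, hB₁, hno⟩ := h.accept (fun a C => (T.basic a C).Subsingleton)
    (fun a B B' h1 h2 => h1.anti h2) h.subsingleton_step s A hA hs
  obtain ⟨B₂, hB₂, hty⟩ := h.fusion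
    (fun a B => (∃ u, T.Succ a B ⊆ {u}) ∨ ∀ C ∈ T.basic a B, (T.Succ a C).Infinite)
    (by
      rintro a B B' (⟨u, hu⟩ | h1) hsub
      · exact Or.inl ⟨u, (h.succ_mono' hsub).trans hu⟩
      · exact Or.inr fun C hC => h1 C (hsub hC))
    s B₁ ⟨B₁, h.self_mem hB₁⟩ (by
      intro a B _ _ hne
      by_cases hex : ∃ C ∈ T.basic a B, (T.Succ a C).Finite
      · obtain ⟨C, hC, hfin⟩ := hex
        obtain ⟨D, hD, u, hu⟩ := h.exists_singleton ⟨C, h.self_mem hC⟩ hfin
        exact ⟨D, h.basic_mono hC.2 hD, Or.inl ⟨u, hu⟩⟩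
      · push Not at hex
        obtain ⟨C, hC⟩ := hne
        exact ⟨C, hC, Or.inr fun D hD => hex D (h.basic_mono hC.2 hD)⟩)
  have hno2 : ∀ a, T.Initial s a → ∀ C ∈ T.basic a B₂, ¬ (T.basic a C).Subsingleton :=
    fun a ha C hC => hno a ha C (h.basic_mono hB₂.2 hC)
  obtain ⟨j, _, hj, hinf⟩ := h.levels hno2 hty (F := B₂) (h.self_mem hB₂) 0
  have hB₂' := h.mem_basic.1 hB₂
  have hsr : T.Initial s (T.r B₂ j) := by
    rw [h.initial_iff]
    exact ⟨hj, hB₂'.1⟩
  exact ⟨T.r B₂ j, B₂, ⟨B₂, ⟨_, rfl⟩, h.le_refl _⟩, hinf,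
    fun a ha => hno2 a (h.initial_trans hsr ha), fun a ha => hty a (h.initial_trans hsr ha)⟩

end Triple

end Pool.Agent.Lib.MP_b89b7d_lc
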