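import Pool.Agent.Lib.MP_b89b7d_lc.Hard

set_option autoImplicit false
set_option linter.unusedSectionVars false
set_option linter.style.haveILetI false

namespace Pool.Agent.Lib.MP_b89b7d_lc

open Set TopologicalSpace Filter Topology MeasureTheory

theorem polish_cantor : PolishSpace (ℕ → Bool) := by
  haveI : IsCompletelyMetrizableSpace (ℕ → Bool) := inferInstance
  infer_instance

theorem polish_pair : PolishSpace ((ℕ → Bool) × (ℕ → ℕ)) := by
  haveI : IsCompletelyMetrizableSpace (ℕ → Bool) := inferInstance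
  haveI : IsCompletelyMetrizableSpace ((ℕ → Bool) × (ℕ → ℕ)) := inferInstance
  infer_instance

theorem polish_triple : PolishSpace (((ℕ → Bool) × (ℕ → ℕ)) × (ℕ → ℕ)) := by
  haveI : IsCompletelyMetrizableSpace (ℕ → Bool) := inferInstance
  haveI : IsCompletelyMetrizableSpace ((ℕ → Bool) × (ℕ → ℕ)) := inferInstance
  haveI : IsCompletelyMetrizableSpace (((ℕ → Bool) × (ℕ → ℕ)) × (ℕ → ℕ)) := inferInstance
  infer_instance

namespace Triple

variable {T : Triple} {lefin : T.AR → T.AR → Prop}

/-- `b` is the sequence of approximations of a point. -/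
def IsPt (T : Triple) (b : ℕ → T.AR) : Prop :=
  ∀ N, T.len (b N) = N ∧ ∀ k ≤ N, T.Initial (b k) (b N)

/-- All coded sets are trees. -/
def Trees (T : Triple) (e : ℕ × T.AR ≃ ℕ) (x : ℕ → Bool) : Prop :=
  ∀ (n : ℕ) (a b : T.AR), T.Initial a b → x (e (n, b)) = true → x (e (n, a)) = true

variable (h : T.Axioms lefin)

include h

theorem Axioms.isPt_r (A : T.R) : T.IsPt (fun n => T.r A n) := by
  intro N
  refine ⟨h.len_r A N, fun k hk => h.initial_r A hk⟩

theorem Axioms.exists_pt {b : ℕ → T.AR} (hb : T.IsPt b) : ∃ A, ∀ n, T.r A n = b n := by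
  apply h.exists_limit
  intro N
  obtain ⟨A, hA⟩ := h.exists_r_eq (b N)
  refine ⟨A, fun n hn => ?_⟩
  have h1 := (hb N).2 n hn.le
  rw [← hA, h.initial_iff, (hb n).1] at h1
  exact h1.2

omit h in
theorem mem_G_iff {e : ℕ × T.AR ≃ ℕ} {x : ℕ → Bool} {A : T.R} :
    A ∈ T.G e x ↔ T.Trees e x ∧ ∀ n, ∃ k, ¬ x (e (n, T.r A k)) = true := by
  constructor
  · rintro ⟨h1, h2⟩
    refine ⟨fun n a b hab hb => h1 n a b hab hb, fun n => ?_⟩
    by_contra hcon
    push Not at hcon
    exact h2 n fun k => hcon k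
  · rintro ⟨h1, h2⟩
    refine ⟨fun n a b hab hb => h1 n a b hab hb, fun n hn => ?_⟩
    obtain ⟨k, hk⟩ := h2 n
    exact hk (hn k)

theorem Axioms.isSigma12_codes (e : ℕ × T.AR ≃ ℕ) : IsSigma12 (T.codes e) := by
  classical
  haveI := h.countable
  obtain ⟨A₀⟩ := h.nonempty
  haveI : Nonempty T.AR := ⟨T.r A₀ 0⟩
  obtain ⟨ρ, hρ⟩ := exists_surjective_nat T.AR
  -- the co-analytic set
  let Q : Set ((ℕ → Bool) × (ℕ → ℕ)) := {p | ∃ A, (∀ k, T.r A k = ρ (p.2 (k + 1))) ∧
    (T.basic (ρ (p.2 0)) A).Nonempty ∧ T.basic (ρ (p.2 0)) A ⊆ T.G e p.1}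
  refine ⟨Q, ?_, ?_⟩
  · -- analytic complement
    let R : Set (((ℕ → Bool) × (ℕ → ℕ)) × (ℕ → ℕ)) := {q |
      (¬ ∀ N, T.len (ρ (q.1.2 (N + 1))) = N ∧
        ∀ k ≤ N, T.Initial (ρ (q.1.2 (k + 1))) (ρ (q.1.2 (N + 1)))) ∨
      (¬ ∃ m, lefin (ρ (q.1.2 0)) (ρ (q.1.2 (m + 1)))) ∨
      ((∀ N, T.len (ρ (q.2 N)) = N ∧ ∀ k ≤ N, T.Initial (ρ (q.2 k)) (ρ (q.2 N))) ∧
        (∃ n, ρ (q.2 n) = ρ (q.1.2 0)) ∧
        (∀ n, ∃ m, lefin (ρ (q.2 n)) (ρ (q.1.2 (m + 1)))) ∧
        ¬ ((∀ (n : ℕ) (a b : T.AR), T.Initial a b → q.1.1 (e (n, b)) = true →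
          q.1.1 (e (n, a)) = true) ∧ ∀ n, ∃ k, ¬ q.1.1 (e (n, ρ (q.2 k))) = true))}
    have hRQ : Prod.fst '' R = Qᶜ := by
      ext ⟨x, y⟩
      constructor
      · rintro ⟨⟨⟨x', y'⟩, z⟩, hR, heq⟩
        simp only [Prod.mk.injEq] at heq
        obtain ⟨rfl, rfl⟩ := heq
        rintro ⟨A, hA1, hA2, hA3⟩
        simp only at hA1 hA2 hA3
        rcases hR with h1 | h1 | ⟨h1, ⟨n, h2⟩, h3, h4⟩
        · apply h1
          intro N
          simp only
          rw [← hA1]
          refine ⟨h.len_r _ _, fun k hk => ?_⟩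
          rw [← hA1]
          exact h.initial_r A hk
        · apply h1
          obtain ⟨m, hm⟩ := h.nonempty_iff.1 hA2
          exact ⟨m, by simp only; rw [← hA1]; exact hm⟩
        · obtain ⟨B, hB⟩ := h.exists_pt (b := fun n => ρ (z n)) h1
          apply h4
          have hBm : B ∈ T.basic (ρ (y' 0)) A := by
            refine ⟨⟨n, (hB n).trans h2⟩, ?_⟩
            rw [h.le_iff]
            intro n
            obtain ⟨m, hm⟩ := h3 n
            refine ⟨m, ?_⟩
            rw [hB, hA1]
            exact hm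
          have h5 := mem_G_iff.1 (hA3 hBm)
          refine ⟨h5.1, fun n => ?_⟩
          obtain ⟨k, hk⟩ := h5.2 n
          refine ⟨k, ?_⟩
          rw [hB] at hk
          exact hk
      · intro hQ
        by_cases h1 : ∀ N, T.len (ρ (y (N + 1))) = N ∧
            ∀ k ≤ N, T.Initial (ρ (y (k + 1))) (ρ (y (N + 1)))
        · obtain ⟨A, hA⟩ := h.exists_pt (b := fun n => ρ (y (n + 1))) h1
          by_cases h2 : ∃ m, lefin (ρ (y 0)) (ρ (y (m + 1)))
          · have hne : (T.basic (ρ (y 0)) A).Nonempty := by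
              rw [h.nonempty_iff]
              obtain ⟨m, hm⟩ := h2
              exact ⟨m, by rw [hA]; exact hm⟩
            have h3 : ¬ T.basic (ρ (y 0)) A ⊆ T.G e x := fun hsub => hQ ⟨A, hA, hne, hsub⟩
            rw [Set.not_subset] at h3
            obtain ⟨B, hB, hBG⟩ := h3
            have hz : ∀ n, ∃ z, ρ z = T.r B n := fun n => hρ _
            choose z hz using hz
            refine ⟨((x, y), z), Or.inr (Or.inr ⟨?_, ?_, ?_, ?_⟩), rfl⟩
            · intro N
              simp only
              rw [hz]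
              refine ⟨h.len_r _ _, fun k hk => ?_⟩
              rw [hz]
              exact h.initial_r B hk
            · obtain ⟨n, hn⟩ := hB.1
              exact ⟨n, by simp only; rw [hz]; exact hn⟩
            · intro n
              obtain ⟨m, hm⟩ := (h.le_iff _ _).1 hB.2 n
              refine ⟨m, ?_⟩
              simp only
              rw [hz, ← hA]
              exact hm
            · rintro ⟨h5, h6⟩
              apply hBG
              rw [mem_G_iff]
              refine ⟨h5, fun n => ?_⟩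
              obtain ⟨k, hk⟩ := h6 n
              refine ⟨k, ?_⟩
              simp only at hk
              rw [hz] at hk
              exact hk
          · exact ⟨((x, y), fun _ => 0), Or.inr (Or.inl h2), rfl⟩
        · exact ⟨((x, y), fun _ => 0), Or.inl h1, rfl⟩
    have hRm : MeasurableSet R := by
      have m1 : ∀ n, Measurable fun q : ((ℕ → Bool) × (ℕ → ℕ)) × (ℕ → ℕ) => q.1.2 n :=
        fun n => (measurable_pi_apply n).comp (measurable_snd.comp measurable_fst)
      have m2 : ∀ n, Measurable fun q : ((ℕ → Bool) × (ℕ → ℕ)) × (ℕ → ℕ) => q.2 n :=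
        fun n => (measurable_pi_apply n).comp measurable_snd
      have m3 : ∀ n, Measurable fun q : ((ℕ → Bool) × (ℕ → ℕ)) × (ℕ → ℕ) => q.1.1 n :=
        fun n => (measurable_pi_apply n).comp (measurable_fst.comp measurable_fst)
      have c2 : ∀ (p : ℕ → ℕ → Prop)
          (f g : ((ℕ → Bool) × (ℕ → ℕ)) × (ℕ → ℕ) → ℕ), Measurable f → Measurable g →
          Measurable fun q => p (f q) (g q) := by
        intro p f g hf hg
        exact (measurable_of_countable (fun t : ℕ × ℕ => p t.1 t.2)).comp (hf.prodMk hg)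
      have c1 : ∀ (p : ℕ → Prop)
          (f : ((ℕ → Bool) × (ℕ → ℕ)) × (ℕ → ℕ) → ℕ), Measurable f →
          Measurable fun q => p (f q) := by
        intro p f hf
        exact (measurable_of_countable p).comp hf
      have cb : ∀ n, Measurable fun q : ((ℕ → Bool) × (ℕ → ℕ)) × (ℕ → ℕ) => q.1.1 n = true :=
        fun n => (measurable_of_countable (fun b : Bool => b = true)).comp (m3 n)
      apply measurableSet_setOfPred.2
      refine Measurable.or (Measurable.not (Measurable.forall fun N => Measurable.and ?_ ?_)) ?_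
      · exact c1 (fun t => T.len (ρ t) = N) _ (m1 (N + 1))
      · refine Measurable.forall fun k => Measurable.imp measurable_const ?_
        exact c2 (fun t t' => T.Initial (ρ t) (ρ t')) _ _ (m1 (k + 1)) (m1 (N + 1))
      refine Measurable.or (Measurable.not (Measurable.exists fun m => ?_)) ?_
      · exact c2 (fun t t' => lefin (ρ t) (ρ t')) _ _ (m1 0) (m1 (m + 1))
      refine Measurable.and (Measurable.forall fun N => Measurable.and ?_ ?_) ?_
      · exact c1 (fun t => T.len (ρ t) = N) _ (m2 N)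
      · refine Measurable.forall fun k => Measurable.imp measurable_const ?_
        exact c2 (fun t t' => T.Initial (ρ t) (ρ t')) _ _ (m2 k) (m2 N)
      refine Measurable.and (Measurable.exists fun n => ?_) ?_
      · exact c2 (fun t t' => ρ t = ρ t') _ _ (m2 n) (m1 0)
      refine Measurable.and (Measurable.forall fun n => Measurable.exists fun m => ?_) ?_
      · exact c2 (fun t t' => lefin (ρ t) (ρ t')) _ _ (m2 n) (m1 (m + 1))
      refine Measurable.not (Measurable.and ?_ ?_)
      · refine Measurable.forall fun n => Measurable.forall fun a => Measurable.forall fun b => ?_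
        exact Measurable.imp measurable_const (Measurable.imp (cb _) (cb _))
      · refine Measurable.forall fun n => Measurable.exists fun k => Measurable.not ?_
        have heq : (fun q : ((ℕ → Bool) × (ℕ → ℕ)) × (ℕ → ℕ) =>
            q.1.1 (e (n, ρ (q.2 k))) = true) =
            fun q => ∃ c : ℕ, c = e (n, ρ (q.2 k)) ∧ q.1.1 c = true := by
          funext q
          apply propext
          constructor
          · intro h1
            exact ⟨_, rfl, h1⟩
          · rintro ⟨c, rfl, h1⟩
            exact h1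
        rw [heq]
        refine Measurable.exists fun c => Measurable.and ?_ (cb c)
        exact c1 (fun t => c = e (n, ρ t)) _ (m2 k)
    rw [← hRQ]
    haveI := polish_triple
    exact hRm.analyticSet.image_of_continuous continuous_fst
  · ext x
    rw [h.codes_iff]
    constructor
    · rintro ⟨⟨x', y⟩, ⟨A, _, hA2, hA3⟩, rfl⟩
      exact ⟨_, A, hA2, hA3⟩
    · rintro ⟨s, A, hne, hsub⟩
      have hex : ∀ k : ℕ, ∃ c, ρ c = (if k = 0 then s else T.r A (k - 1)) := fun k => hρ _
      choose y hy using hex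
      have hy0 : ρ (y 0) = s := by rw [hy]; simp
      refine ⟨(x, y), ⟨A, fun k => ?_, ?_, ?_⟩, rfl⟩
      · simp only
        rw [hy]; simp
      · simp only
        rw [hy0]; exact hne
      · simp only
        rw [hy0]; exact hsub

end Triple

end Pool.Agent.Lib.MP_b89b7d_lc
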